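import Pool.Agent.H.MP_53e2a7_pr.hs.PrS

/-!
# Fin: if the slow type survives then the growth is slow
-/

namespace Frog81

open MeasureTheory ProbabilityTheory Filter
open scoped ENNReal NNReal Topology

/-- The two-type process is never slower than type two alone. -/
theorem two_fast {d : ℕ} {β : ℝ} {z : Site d} {ω : Env d} {t : Site d → ℝ≥0∞} {θ : Site d → Kind}
    (hβ0 : 0 < β) (hβ1 : β ≤ 1) (h : IsTwoType β z ω t θ) (y : Site d) :
    t y ≤ T ω z y / ENNReal.ofReal β := by
  have hb0 : ENNReal.ofReal β ≠ 0 := (ENNReal.ofReal_pos.2 hβ0).ne'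
  have hbt : ENNReal.ofReal β ≠ ⊤ := ENNReal.ofReal_ne_top
  have hr : ∀ κ, ENNReal.ofReal β ≤ rate β κ := by
    intro κ
    cases κ
    · show ENNReal.ofReal β ≤ 1
      rw [← ENNReal.ofReal_one]
      exact ENNReal.ofReal_le_ofReal hβ1
    · exact le_refl _
  have h1 : ∀ a b, ENNReal.ofReal β * t b ≤ ENNReal.ofReal β * t a + travel ω a b := by
    intro a b
    have h2 : t b ≤ t a + travel ω a b / ENNReal.ofReal β :=
      (h.le a b).trans (add_le_add le_rfl (ENNReal.div_le_div_left (hr _) _))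
    calc ENNReal.ofReal β * t b ≤
          ENNReal.ofReal β * (t a + travel ω a b / ENNReal.ofReal β) := mul_le_mul_right h2 _
      _ = ENNReal.ofReal β * t a + travel ω a b := by
          rw [mul_add, ENNReal.mul_div_cancel hb0 hbt]
  have h3 := le_add_T ω (fun x => ENNReal.ofReal β * t x) h1 z y
  have h4 : ENNReal.ofReal β * t y ≤ T ω z y := by
    have h5 : ENNReal.ofReal β * t y ≤ ENNReal.ofReal β * t z + T ω z y := h3
    rwa [h.time_start, mul_zero, zero_add] at h5
  rw [ENNReal.le_div_iff_mul_le (Or.inl hb0) (Or.inl hbt), mul_comm]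
  exact h4

theorem slow_growth {d : ℕ} [NeZero d] (hd : 2 ≤ d) (ν : Measure ℕ) [IsProbabilityMeasure ν]
    (h : HasBoundedShape d ν) {β ε : ℝ} (hβ0 : 0 < β) (hβ1 : β < 1) (hε0 : 0 < ε)
    (hε1 : ε < 1) : ¬ FastGrowthPossible d ν β ε := by
  rintro ⟨z, hz, E, hEm, hE0, hE⟩
  exact hE0.ne' (pair_same hd ν h hβ0 hβ1 hε0 hε1 hz hEm hE)

end Frog81
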