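import Pool.Agent.H.MP_53e2a7_pr.h81.Exist
import Pool.Agent.H.MP_53e2a7_pr.hs.Fin

/-!
# Ase: the almost sure form

PROOF. Outside a null set the process is unique if type two activates infinitely many particles (no ties, all sites are visited), so the set of the environments with a process with the two
properties is the image of a measurable set of the standard Borel space of the triples under an injective map (Lusin-Souslin), hence measurable; `pair_same`.
-/

namespace Frog81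

open MeasureTheory ProbabilityTheory Filter
open scoped ENNReal NNReal Topology

private theorem Ase_fin {d : ℕ} {β : ℝ} {z : Site d} {ω : Env d} {t : Site d → ℝ≥0∞}
    {θ : Site d → Kind} (h : IsTwoType β z ω t θ) {m : ℝ≥0∞} (hm : m ≠ ⊤) :
    {u | t u < m}.Finite := by
  refine (h.fin m.toNNReal).subset ?_
  intro u hu
  have hu' : t u < m := hu
  change t u ≤ (m.toNNReal : ℝ≥0∞)
  rw [ENNReal.coe_toNNReal hm]
  exact hu'.le

/-- the measure of the induction does not grow -/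
private theorem Ase_le {d : ℕ} {t : Site d → ℝ≥0∞} {m m' : ℝ≥0∞} (hf : {u | t u < m}.Finite)
    (hm : m' < m) : {u | t u < m'}.ncard ≤ {u | t u < m}.ncard := by
  apply Set.ncard_le_ncard _ hf
  intro u hu
  exact lt_trans (show t u < m' from hu) hm

/-- the measure of the induction drops at a time that occurs -/
private theorem Ase_lt {d : ℕ} {t : Site d → ℝ≥0∞} {m m' : ℝ≥0∞} (hf : {u | t u < m}.Finite)
    (hm : m' < m) {u : Site d} (hu : t u = m') :
    {u | t u < m'}.ncard < {u | t u < m}.ncard := by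
  apply Set.ncard_lt_ncard _ hf
  constructor
  · intro v hv
    exact lt_trans (show t v < m' from hv) hm
  · intro hsub
    have h2 : u ∈ {u | t u < m} := by
      change t u < m
      rw [hu]; exact hm
    exact absurd hu (ne_of_lt (show t u < m' from hsub h2))

private theorem Ase_travel {d : ℕ} {ω ω' : Env d} {u : Site d} (h : ω u = ω' u) (y : Site d) :
    travel ω u y = travel ω' u y := by
  unfold travel
  rw [h]

/-- two parents of the same site are of the same type -/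
private theorem Ase_kind {d : ℕ} {β : ℝ} {z : Site d} {ω : Env d} {t : Site d → ℝ≥0∞}
    {θ : Site d → Kind} (hreg : Regular ω) (hβ0 : 0 < β) (hnt : NoTie β z ω)
    (h : IsTwoType β z ω t θ) {y u v : Site d} (hy0 : y ≠ 0) (hty : t y ≠ ⊤)
    (hu : t y = t u + travel ω u y / rate β (θ u)) (hv : t y = t v + travel ω v y / rate β (θ v)) :
    θ u = θ v := by
  rcases hku : θ u with _ | _ <;> rcases hkv : θ v with _ | _
  · rfl
  · exfalso
    rw [hku] at hu
    rw [hkv] at hv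
    simp only [rate, div_one] at hu hv
    exact no_tie hreg hβ0 hnt h hy0 hku hkv (hu ▸ hty) (hu.symm.trans hv)
  · exfalso
    rw [hku] at hu
    rw [hkv] at hv
    simp only [rate, div_one] at hu hv
    exact no_tie hreg hβ0 hnt h hy0 hkv hku (hv ▸ hty) (hv.symm.trans hu)
  · rfl

/-- agreement at the time `m` -/
private theorem Ase_main {d : ℕ} {β : ℝ} {z : Site d} {ω ω' : Env d} {t t' : Site d → ℝ≥0∞}
    {θ θ' : Site d → Kind} (K : Set (Site d)) (hK : ∀ y ∈ K, ω y = ω' y) (hreg : Regular ω)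
    (hreg' : Regular ω') (hβ0 : 0 < β) (hnt : NoTie β z ω)
    (h : IsTwoType β z ω t θ) (h' : IsTwoType β z ω' t' θ') {B : ℝ≥0∞}
    (hb : ∀ w, t w < B → w ∈ K) :
    ∀ n : ℕ, ∀ m : ℝ≥0∞, m ≠ ⊤ → m ≤ B → {u | t u < m}.ncard + {u | t' u < m}.ncard = n →
      ∀ y, min (t y) (t' y) = m → t y = t' y ∧ θ y = θ' y := by
  intro n
  induction n using Nat.strong_induction_on with
  | _ n ih =>
    intro m hm hmB hn
    have hP : ∀ y, min (t y) (t' y) < m → t y = t' y ∧ θ y = θ' y := by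
      intro y hy
      refine ih _ ?_ (min (t y) (t' y)) (hy.trans_le le_top).ne (hy.le.trans hmB) rfl y rfl
      rw [← hn]
      rcases min_choice (t y) (t' y) with hc | hc
      · exact add_lt_add_of_lt_of_le (Ase_lt (Ase_fin h hm) hy hc.symm)
          (Ase_le (Ase_fin h' hm) hy)
      · exact add_lt_add_of_le_of_lt (Ase_le (Ase_fin h hm) hy)
          (Ase_lt (Ase_fin h' hm) hy hc.symm)
    intro y hym
    by_cases hy0 : y = 0
    · subst hy0
      exact ⟨by rw [h.time_zero, h'.time_zero], by rw [h.kind_zero, h'.kind_zero]⟩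
    by_cases hyz : y = z
    · subst hyz
      exact ⟨by rw [h.time_start, h'.time_start], by rw [h.kind_start, h'.kind_start]⟩
    have hm1 : m ≤ t y := hym ▸ min_le_left _ _
    have hm2 : m ≤ t' y := hym ▸ min_le_right _ _
    -- a parent in the second process, when the site is reached there at the time `m`
    have key : t' y = m → ∃ v, θ' v = θ' y ∧ θ v = θ' v ∧
        t' y = t v + travel ω v y / rate β (θ v) := by
      intro hy'
      have hty' : t' y ≠ ⊤ := by rw [hy']; exact hm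
      obtain ⟨v, hvy, hθ, he⟩ := h'.parent y hy0 hyz hty'
      have hlt := time_lt hreg' hβ0 h' v y hvy hty' he
      have hvm : min (t v) (t' v) < m := lt_of_le_of_lt (min_le_right _ _) (hy' ▸ hlt)
      obtain ⟨h1, h2⟩ := hP v hvm
      have h3 : t v < m := by rw [h1]; exact hy' ▸ hlt
      have hvK : v ∈ K := hb v (lt_of_lt_of_le h3 hmB)
      refine ⟨v, hθ, h2, ?_⟩
      rw [h1, h2, Ase_travel (hK v hvK) y]
      exact he
    rcases eq_or_lt_of_le hm1 with hc | hc
    · -- the site is reached at the time `m` in the first process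
      have hty : t y ≠ ⊤ := by rw [← hc]; exact hm
      obtain ⟨u, huy, hθ, he⟩ := h.parent y hy0 hyz hty
      have hlt := time_lt hreg hβ0 h u y huy hty he
      have hltm : t u < m := by rw [hc]; exact hlt
      have huK : u ∈ K := hb u (lt_of_lt_of_le hltm hmB)
      obtain ⟨h1, h2⟩ := hP u (lt_of_le_of_lt (min_le_left _ _) hltm)
      have h3 : t' y ≤ t y := by
        calc t' y ≤ t' u + travel ω' u y / rate β (θ' u) := h'.le u y
          _ = t u + travel ω u y / rate β (θ u) := by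
            rw [h1, h2, Ase_travel (hK u huK) y]
          _ = t y := he.symm
      have h4 : t' y = m := le_antisymm (h3.trans hc.symm.le) hm2
      have h5 : t y = t' y := by rw [h4]; exact hc.symm
      obtain ⟨v, hv1, hv2, hv3⟩ := key h4
      refine ⟨h5, ?_⟩
      have h6 := Ase_kind hreg hβ0 hnt h hy0 hty he (h5.trans hv3)
      rw [← hθ, h6, hv2, hv1]
    · -- the site is reached at the time `m` in the second process only
      exfalso
      have h4 : t' y = m := by
        rcases min_choice (t y) (t' y) with hd | hd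
        · rw [hym] at hd
          exact absurd hd hc.ne
        · rw [← hd, hym]
      obtain ⟨v, hv1, hv2, hv3⟩ := key h4
      have h5 : t y ≤ t' y := by
        rw [hv3]
        exact h.le v y
      rw [h4] at h5
      exact absurd (lt_of_lt_of_le hc h5) (lt_irrefl _)

/-- the two-type process is unique where it is finite -/
private theorem Ase_unique {d : ℕ} {β : ℝ} {z : Site d} {ω : Env d} {t t' : Site d → ℝ≥0∞}
    {θ θ' : Site d → Kind} (hreg : Regular ω) (hβ0 : 0 < β) (hnt : NoTie β z ω)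
    (h : IsTwoType β z ω t θ) (h' : IsTwoType β z ω t' θ') {x : Site d} (htx : t x ≠ ⊤) :
    t x = t' x ∧ θ x = θ' x :=
  Ase_main Set.univ (fun _ _ => rfl) hreg hreg hβ0 hnt h h' (B := ⊤) (fun _ _ => Set.mem_univ _) _
    (min (t x) (t' x)) (lt_of_le_of_lt (min_le_left _ _) (lt_top_iff_ne_top.2 htx)).ne le_top rfl
    x rfl

private def Ase_kd (b : Bool) : Kind := if b = true then Kind.one else Kind.two

private theorem Ase_kd_inj {b b' : Bool} (h : Ase_kd b = Ase_kd b') : b = b' := by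
  cases b <;> cases b' <;> first | rfl | (exact absurd h (by decide))

private theorem Ase_kd_dec (κ : Kind) : Ase_kd (decide (κ = Kind.one)) = κ := by
  cases κ <;> rfl

private abbrev Ase_P (d : ℕ) : Type := Env d × (Site d → ℝ≥0∞) × (Site d → Bool)

private theorem Ase_sb0 (d : ℕ) : StandardBorelSpace (Env d) := by
  have h1 : StandardBorelSpace (Walk d) := StandardBorelSpace.pi_countable
  have h2 : StandardBorelSpace (ℕ → Walk d) := StandardBorelSpace.pi_countable
  have h3 : StandardBorelSpace (SiteData d) := StandardBorelSpace.prod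
  exact StandardBorelSpace.pi_countable

private theorem Ase_sb (d : ℕ) : StandardBorelSpace (Ase_P d) := by
  have h4 : StandardBorelSpace (Env d) := Ase_sb0 d
  exact StandardBorelSpace.prod

private theorem Ase_iff {d : ℕ} {β : ℝ} {z : Site d} {ω : Env d} {t : Site d → ℝ≥0∞}
    {θ : Site d → Kind} : IsTwoType β z ω t θ ↔
      (((t 0 = 0 ∧ θ 0 = Kind.one) ∧ t z = 0) ∧ θ z = Kind.two) ∧
      (∀ x y, t y ≤ t x + travel ω x y / rate β (θ x)) ∧
      (∀ y : {y : Site d // y ≠ 0 ∧ y ≠ z}, t y = ⊤ ∨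
        ∃ x : {x : Site d // x ≠ y}, θ x = θ y ∧ t y = t x + travel ω x y / rate β (θ x)) ∧
      ∀ n : ℕ, ¬ {y | t y ≤ (n : ℝ≥0∞)}.Infinite := by
  constructor
  · intro h
    refine ⟨⟨⟨⟨h.time_zero, h.kind_zero⟩, h.time_start⟩, h.kind_start⟩, h.le, ?_, ?_⟩
    · rintro ⟨y, h0, hz⟩
      by_cases hy : t y = ⊤
      · exact Or.inl hy
      · obtain ⟨x, h1, h2, h3⟩ := h.parent y h0 hz hy
        exact Or.inr ⟨⟨x, h1⟩, h2, h3⟩
    · intro n
      rw [Set.not_infinite]
      have h1 := h.fin n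
      exact h1.subset fun y hy => by
        have hy' : t y ≤ (n : ℝ≥0∞) := hy
        show t y ≤ ((n : ℝ≥0) : ℝ≥0∞)
        simpa using hy'
  · rintro ⟨⟨⟨⟨h1, h2⟩, h3⟩, h4⟩, h5, h6, h7⟩
    refine ⟨h1, h2, h3, h4, h5, ?_, ?_⟩
    · intro y h0 hz hy
      rcases h6 ⟨y, h0, hz⟩ with h8 | ⟨⟨x, h8⟩, h9, h10⟩
      · exact absurd h8 hy
      · exact ⟨x, h8, h9, h10⟩
    · intro s
      obtain ⟨n, hn⟩ := exists_nat_ge s
      refine (Set.not_infinite.1 (h7 n)).subset fun y hy => ?_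
      have hy' : t y ≤ (s : ℝ≥0∞) := hy
      show t y ≤ (n : ℝ≥0∞)
      refine hy'.trans ?_
      exact_mod_cast hn

private theorem Ase_meas {d : ℕ} (β : ℝ) (z : Site d) :
    MeasurableSet {p : Ase_P d | IsTwoType β z p.1 p.2.1 (fun y => Ase_kd (p.2.2 y))} := by
  have mt : ∀ y, Measurable fun p : Ase_P d => p.2.1 y := fun y =>
    (measurable_pi_apply y).comp (measurable_fst.comp measurable_snd)
  have mb : ∀ y, Measurable fun p : Ase_P d => p.2.2 y := fun y =>
    (measurable_pi_apply y).comp (measurable_snd.comp measurable_snd)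
  have mk : ∀ y κ, MeasurableSet {p : Ase_P d | Ase_kd (p.2.2 y) = κ} := fun y κ =>
    mb y (MeasurableSet.of_discrete (s := {b | Ase_kd b = κ}))
  have mkk : ∀ x y, MeasurableSet {p : Ase_P d | Ase_kd (p.2.2 x) = Ase_kd (p.2.2 y)} :=
    fun x y => ((mb x).prodMk (mb y))
      (MeasurableSet.of_discrete (s := {b : Bool × Bool | Ase_kd b.1 = Ase_kd b.2}))
  have mr : ∀ y, Measurable fun p : Ase_P d => rate β (Ase_kd (p.2.2 y)) := fun y =>
    (Measurable.of_discrete (f := fun b : Bool => rate β (Ase_kd b))).comp (mb y)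
  have mv : ∀ x y, Measurable fun p : Ase_P d => travel p.1 x y := fun x y =>
    (measurable_travel x y).comp measurable_fst
  have mw : ∀ x y, Measurable fun p : Ase_P d =>
      p.2.1 x + travel p.1 x y / rate β (Ase_kd (p.2.2 x)) := fun x y =>
    (mt x).add ((mv x y).div (mr x))
  have h : {p : Ase_P d | IsTwoType β z p.1 p.2.1 (fun y => Ase_kd (p.2.2 y))} =
      ((({p : Ase_P d | p.2.1 0 = 0} ∩ {p : Ase_P d | Ase_kd (p.2.2 0) = Kind.one}) ∩
        {p : Ase_P d | p.2.1 z = 0}) ∩ {p : Ase_P d | Ase_kd (p.2.2 z) = Kind.two}) ∩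
      ((⋂ x, ⋂ y, {p : Ase_P d | p.2.1 y ≤
        p.2.1 x + travel p.1 x y / rate β (Ase_kd (p.2.2 x))}) ∩
      ((⋂ y : {y : Site d // y ≠ 0 ∧ y ≠ z}, ({p : Ase_P d | p.2.1 y = ⊤} ∪
        ⋃ x : {x : Site d // x ≠ y}, ({p : Ase_P d | Ase_kd (p.2.2 x) = Ase_kd (p.2.2 y)} ∩
          {p : Ase_P d | p.2.1 y = p.2.1 x + travel p.1 x y / rate β (Ase_kd (p.2.2 x))}))) ∩
      ⋂ n : ℕ, {p : Ase_P d | {y | p.2.1 y ≤ (n : ℝ≥0∞)}.Infinite}ᶜ)) := by
    ext p
    simp only [Set.mem_inter_iff, Set.mem_iInter, Set.mem_union, Set.mem_iUnion,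
      Set.mem_compl_iff]
    exact Ase_iff
  rw [h]
  refine MeasurableSet.inter ?_ (MeasurableSet.inter ?_ (MeasurableSet.inter ?_ ?_))
  · exact (((measurableSet_eq_fun (mt 0) measurable_const).inter (mk 0 _)).inter
      (measurableSet_eq_fun (mt z) measurable_const)).inter (mk z _)
  · exact MeasurableSet.iInter fun x => MeasurableSet.iInter fun y =>
      measurableSet_le (mt y) (mw x y)
  · refine MeasurableSet.iInter fun y => MeasurableSet.union ?_ (MeasurableSet.iUnion fun x => ?_)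
    · exact measurableSet_eq_fun (mt y) measurable_const
    · exact (mkk x y).inter (measurableSet_eq_fun (mt y) (mw x y))
  · refine MeasurableSet.iInter fun n => MeasurableSet.compl ?_
    exact measurableSet_infinite (fun (p : Ase_P d) y => p.2.1 y ≤ (n : ℝ≥0∞)) fun y =>
      measurableSet_le (mt y) measurable_const

private theorem Ase_aefin {d : ℕ} [NeZero d] (ν : Measure ℕ) [IsProbabilityMeasure ν]
    (h : HasBoundedShape d ν) : ∀ᵐ ω ∂ envLaw d ν, ∀ a : Site d, 1 ≤ (ω a).1 →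
    (∀ y, T ω a y ≠ ⊤) ∧ ∀ s : ℝ≥0, {y | T ω a y ≤ (s : ℝ≥0∞)}.Finite :=
  ae_finite ν h

theorem ae_slow {d : ℕ} [NeZero d] (hd : 2 ≤ d) (ν : Measure ℕ) [IsProbabilityMeasure ν]
    (h : HasBoundedShape d ν) {β ε : ℝ} (hβ0 : 0 < β) (hβ1 : β < 1) (hε0 : 0 < ε) (hε1 : ε < 1)
    {z : Site d} (hz : z ≠ 0) : ∀ᵐ ω ∂ envLaw d ν, ∀ t θ, IsTwoType β z ω t θ →
      Activates ω t θ Kind.two →
        {y | t y < ENNReal.ofReal ((1 - ε) / β) * T ω z y}.Finite := by
  have hae : ∀ᵐ ω ∂ envLaw d ν, Regular ω ∧ NoTie β z ω ∧ ∀ a : Site d, 1 ≤ (ω a).1 →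
      ∀ y, T ω a y ≠ ⊤ := by
    filter_upwards [ae_regular ν, ae_noTie ν hβ0 hz, Ase_aefin ν h] with ω h1 h2 h3
    exact ⟨h1, h2, fun a ha => (h3 a ha).1⟩
  obtain ⟨Z, hZsub, hZm, hZ0⟩ := exists_measurable_superset_of_null (ae_iff.1 hae)
  have hQ : ∀ ω, ω ∉ Z → Regular ω ∧ NoTie β z ω ∧ ∀ a : Site d, 1 ≤ (ω a).1 →
      ∀ y, T ω a y ≠ ⊤ := by
    intro ω hω
    by_contra hcon
    exact hω (hZsub hcon)
  have mt : ∀ y, Measurable fun p : Ase_P d => p.2.1 y := fun y =>
    (measurable_pi_apply y).comp (measurable_fst.comp measurable_snd)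
  have mb : ∀ y, Measurable fun p : Ase_P d => p.2.2 y := fun y =>
    (measurable_pi_apply y).comp (measurable_snd.comp measurable_snd)
  obtain ⟨S, hS⟩ : ∃ S : Set (Ase_P d), S = ({p : Ase_P d | p.1 ∉ Z} ∩
      {p : Ase_P d | IsTwoType β z p.1 p.2.1 (fun y => Ase_kd (p.2.2 y))}) ∩
      ({p : Ase_P d | {y | Ase_kd (p.2.2 y) = Kind.two ∧ p.2.1 y ≠ ⊤ ∧ 1 ≤ (p.1 y).1}.Infinite} ∩
      {p : Ase_P d | {y | p.2.1 y < ENNReal.ofReal ((1 - ε) / β) * T p.1 z y}.Infinite}) :=
    ⟨_, rfl⟩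
  have hSm : MeasurableSet S := by
    rw [hS]
    refine ((measurable_fst hZm.compl).inter (Ase_meas β z)).inter
      ((measurableSet_infinite _ fun y => ?_).inter (measurableSet_infinite _ fun y => ?_))
    · refine (mb y (MeasurableSet.of_discrete (s := {b | Ase_kd b = Kind.two}))).inter
        (((mt y) (measurableSet_singleton ⊤)).compl.inter ?_)
      exact measurableSet_le measurable_const ((measurable_count y).comp measurable_fst)
    · exact measurableSet_lt (mt y) (((measurable_T z y).comp measurable_fst).const_mul _)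
  have hSP : ∀ p ∈ S, p.1 ∉ Z ∧ IsTwoType β z p.1 p.2.1 (fun y => Ase_kd (p.2.2 y)) ∧
      Activates p.1 p.2.1 (fun y => Ase_kd (p.2.2 y)) Kind.two ∧
      {y | p.2.1 y < ENNReal.ofReal ((1 - ε) / β) * T p.1 z y}.Infinite := by
    intro p hp
    rw [hS] at hp
    exact ⟨hp.1.1, hp.1.2, hp.2.1, hp.2.2⟩
  have hinj : Set.InjOn (Prod.fst : Ase_P d → Env d) S := by
    rintro ⟨ω, t, b⟩ hp ⟨ω', t', b'⟩ hq hpq
    have hpq' : ω = ω' := hpq
    subst hpq'
    obtain ⟨p1, p2, p3, -⟩ := hSP _ hp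
    obtain ⟨q1, q2, q3, -⟩ := hSP _ hq
    obtain ⟨r1, r2, r3⟩ := hQ ω p1
    have hz1 : 1 ≤ (ω z).1 := occ_two r1 hβ0 p2 p3
    have hfin : ∀ y, t y ≠ ⊤ := by
      intro y hy
      have h1 := two_fast hβ0 hβ1.le p2 y
      have h2 : T ω z y / ENNReal.ofReal β ≠ ⊤ :=
        ENNReal.div_ne_top (r3 z hz1 y) (ENNReal.ofReal_pos.2 hβ0).ne'
      have h3 : t y ≤ T ω z y / ENNReal.ofReal β := h1
      rw [hy] at h3
      exact h2 (top_le_iff.1 h3)
    have huniq : ∀ y, t y = t' y ∧ Ase_kd (b y) = Ase_kd (b' y) := fun y =>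
      Ase_unique r1 hβ0 r2 p2 q2 (hfin y)
    have e1 : t = t' := funext fun y => (huniq y).1
    have e2 : b = b' := funext fun y => Ase_kd_inj (huniq y).2
    rw [e1, e2]
  have hGm : MeasurableSet ((Prod.fst : Ase_P d → Env d) '' S) := by
    have h1 := Ase_sb d
    have h2 := Ase_sb0 d
    exact hSm.image_of_measurable_injOn measurable_fst hinj
  have hG0 : envLaw d ν ((Prod.fst : Ase_P d → Env d) '' S) = 0 := by
    refine pair_same hd ν h hβ0 hβ1 hε0 hε1 hz hGm ?_
    rintro ω ⟨p, hp, rfl⟩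
    obtain ⟨-, p2, p3, p4⟩ := hSP p hp
    exact ⟨_, _, p2, p3, p4⟩
  filter_upwards [measure_eq_zero_iff_ae_notMem.1 hZ0, measure_eq_zero_iff_ae_notMem.1 hG0] with
    ω h1 h2 t θ h3 h4
  by_contra h5
  apply h2
  have hθ : (fun y => Ase_kd (decide (θ y = Kind.one))) = θ := funext fun y => Ase_kd_dec (θ y)
  refine ⟨(ω, t, fun y => decide (θ y = Kind.one)), ?_, rfl⟩
  rw [hS]
  refine ⟨⟨h1, ?_⟩, ?_, h5⟩
  · show IsTwoType β z ω t (fun y => Ase_kd (decide (θ y = Kind.one)))
    rw [hθ]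
    exact h3
  · show {y | Ase_kd (decide (θ y = Kind.one)) = Kind.two ∧ t y ≠ ⊤ ∧ 1 ≤ (ω y).1}.Infinite
    have h6 : {y | Ase_kd (decide (θ y = Kind.one)) = Kind.two ∧ t y ≠ ⊤ ∧ 1 ≤ (ω y).1} =
        {y | θ y = Kind.two ∧ t y ≠ ⊤ ∧ 1 ≤ (ω y).1} := by
      ext y
      show (Ase_kd (decide (θ y = Kind.one)) = Kind.two ∧ _) ↔ (θ y = Kind.two ∧ _)
      rw [Ase_kd_dec]
    rw [h6]
    exact h4

/-- Almost surely, for all `z ≠ 0`, for every version of the two-type process. -/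
theorem ae_slow_all {d : ℕ} [NeZero d] (hd : 2 ≤ d) (ν : Measure ℕ) [IsProbabilityMeasure ν]
    (h : HasBoundedShape d ν) {β : ℝ} (hβ0 : 0 < β) (hβ1 : β < 1) :
    ∀ᵐ ω ∂ envLaw d ν, ∀ z, z ≠ 0 → ∀ t θ, IsTwoType β z ω t θ →
      (∀ y, t y ≤ T ω z y / ENNReal.ofReal β) ∧
      (Activates ω t θ Kind.two → ∀ ε : ℝ, 0 < ε →
        {y | t y < ENNReal.ofReal ((1 - ε) / β) * T ω z y}.Finite) := by
  have h1 : ∀ᵐ ω ∂ envLaw d ν, ∀ (z : {z : Site d // z ≠ 0}) (n : ℕ), ∀ t θ,
      IsTwoType β z ω t θ → Activates ω t θ Kind.two →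
        {y | t y < ENNReal.ofReal ((1 - 1 / ((n : ℝ) + 2)) / β) * T ω z y}.Finite := by
    rw [ae_all_iff]
    intro z
    rw [ae_all_iff]
    intro n
    have hn : (0 : ℝ) < (n : ℝ) + 2 := by positivity
    refine ae_slow hd ν h hβ0 hβ1 (by positivity) ?_ z.2
    rw [div_lt_one hn]
    have : (0 : ℝ) ≤ n := Nat.cast_nonneg n
    linarith
  filter_upwards [h1] with ω hω z hz t θ ht
  refine ⟨fun y => two_fast hβ0 hβ1.le ht y, fun ha ε hε => ?_⟩
  obtain ⟨n, hn⟩ := exists_nat_gt (1 / ε)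
  refine (hω ⟨z, hz⟩ n t θ ht ha).subset fun y hy => ?_
  have hy' : t y < ENNReal.ofReal ((1 - ε) / β) * T ω z y := hy
  refine lt_of_lt_of_le hy' (mul_le_mul' (ENNReal.ofReal_le_ofReal ?_) le_rfl)
  have h2 : 1 / ((n : ℝ) + 2) ≤ ε := by
    rw [div_le_iff₀ (by positivity)]
    rw [div_lt_iff₀ hε] at hn
    nlinarith
  exact div_le_div_of_nonneg_right (by linarith) hβ0.le

/-- The same with the existence of the process. -/
theorem ae_slow_ex {d : ℕ} [NeZero d] (hd : 2 ≤ d) (ν : Measure ℕ) [IsProbabilityMeasure ν]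
    (h : HasBoundedShape d ν) {β : ℝ} (hβ0 : 0 < β) (hβ1 : β < 1) :
    ∀ᵐ ω ∂ envLaw d ν, ∀ z, z ≠ 0 →
      (1 ≤ (ω 0).1 → 1 ≤ (ω z).1 → ∃ t θ, IsTwoType β z ω t θ) ∧
      ∀ t θ, IsTwoType β z ω t θ →
        (∀ y, t y ≤ T ω z y / ENNReal.ofReal β) ∧
        (Activates ω t θ Kind.two → ∀ ε : ℝ, 0 < ε →
          {y | t y < ENNReal.ofReal ((1 - ε) / β) * T ω z y}.Finite) := by
  filter_upwards [ae_slow_all hd ν h hβ0 hβ1, ae_regular ν, Ase_aefin ν h] with ω h1 h2 h3 z hz
  refine ⟨fun h4 h5 => ?_, h1 z hz⟩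
  exact exists_twoType ω h2 β hβ0 hβ1.le z hz h4 h5
    (fun s => ((h3 0 h4).2 s).union ((h3 z h5).2 s)) (h3 0 h4).1

end Frog81
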