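import Pool.Agent.H.MP_53e2a7_pr.he.Defs

/-!
# If the slow type survives then the growth is slow: definitions

`FastGrowthPossible` is used in the hand-in, `NoTie` is auxiliary.
-/

namespace Frog81

open MeasureTheory ProbabilityTheory Filter
open scoped ENNReal NNReal Topology

/-- No particle of type two arrives at a site at the same time as a particle of type one. -/
def NoTie {d : ℕ} (β : ℝ) (z : Site d) (ω : Env d) : Prop :=
  ∀ (m m' : List (Site d)) (y : Site d), (∀ v ∈ m, v ≠ 0) → (∀ v ∈ m', v ≠ 0) → y ≠ 0 →
    cost ω 0 (m ++ [y]) ≠ ⊤ → cost ω 0 (m ++ [y]) ≠ cost ω z (m' ++ [y]) / ENNReal.ofReal β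

/-- For some `z ≠ 0`, on a measurable event of positive probability there is a version of the
two-type process in which type two activates infinitely many particles although infinitely many
sites `y` are visited before time `(1 - ε) T(z, y) / β`; `T(z, y) / β` is the time at which type two
alone, started from `z`, would visit `y`. -/
def FastGrowthPossible (d : ℕ) [NeZero d] (ν : Measure ℕ) (β ε : ℝ) : Prop :=
  ∃ z : Site d, z ≠ 0 ∧ ∃ E : Set (Env d), MeasurableSet E ∧ 0 < envLaw d ν E ∧
    ∀ ω ∈ E, ∃ t θ, IsTwoType β z ω t θ ∧ Activates ω t θ Kind.two ∧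
      {y | t y < ENNReal.ofReal ((1 - ε) / β) * T ω z y}.Infinite

end Frog81
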