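import Pool.Agent.H.MP_53e2a7_pr.h81.Reg
import Pool.Agent.H.MP_53e2a7_pr.h81.Meas
import Pool.Agent.H.MP_53e2a7_pr.hs.Defs

/-!
# Atm: the clock of a walk has no atoms

PROOF. `walkLaw d` is `Measure.infinitePi` of `(expMeasure 1).prod (stepLaw d)`. `clock w (k+1) = (w 0).1 + ∑ i ∈ range k, (w (i+1)).1`, where the coordinate `0` and the
others are independent (`Measure.infinitePi` split at one coordinate, or `iIndepFun_infinitePi` for the sums; or induction on `k`: the map `w ↦ ((w k).1, clock w k)` has the law
`(expMeasure 1).prod _` by `iIndepFun` (`indepFun_finset` or `iIndepFun.indepFun_finset_sum_of_notMem`), then `P {a + b = c} = ∫ P {a = c - b} = 0` (`Measure.prod_apply`, a point has `expMeasure 1`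
zero: `expMeasure` is absolutely continuous, `withDensity` of `volume`)). In the application only `w` restricted to the first `k+1` coordinates matters.
-/

namespace Frog81

open MeasureTheory ProbabilityTheory Filter
open scoped ENNReal NNReal Topology

private theorem Atm_point (a : ℝ) : expMeasure 1 {a} = 0 := by
  have h1 : expMeasure 1 = volume.withDensity (exponentialPDF 1) := rfl
  rw [h1]
  exact withDensity_absolutelyContinuous _ _ (measure_singleton a)

private theorem Atm_ind (d : ℕ) [NeZero d] (k : ℕ) :
    IndepFun (fun w : Walk d => (w k).1) (fun w : Walk d => clock w k) (walkLaw d) := by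
  have hind : iIndepFun (fun (i : ℕ) (w : Walk d) => w i) (walkLaw d) :=
    iIndepFun_infinitePi (P := fun _ : ℕ => (expMeasure 1).prod (stepLaw d)) (X := fun _ ω => ω)
      (fun _ => measurable_id)
  have h1 := hind.indepFun_finset {k} (Finset.range k)
    (by
      rw [Finset.disjoint_singleton_left, Finset.mem_range]
      exact lt_irrefl k) (fun i => measurable_pi_apply i)
  have h2 : Measurable fun v : (i : ({k} : Finset ℕ)) → ℝ × Dir d =>
      (v ⟨k, Finset.mem_singleton_self k⟩).1 :=
    measurable_fst.comp (measurable_pi_apply _)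
  have h3 : Measurable fun v : (i : Finset.range k) → ℝ × Dir d =>
      ∑ i ∈ (Finset.range k).attach, (v i).1 :=
    Finset.measurable_sum _ fun i _ => measurable_fst.comp (measurable_pi_apply i)
  have h4 := h1.comp h2 h3
  refine h4.congr (ae_of_all _ fun w => rfl) (ae_of_all _ fun w => ?_)
  show ∑ i ∈ (Finset.range k).attach, (w i).1 = clock w k
  unfold clock
  exact Finset.sum_attach (Finset.range k) fun i => (w i).1

theorem clock_atom (d : ℕ) [NeZero d] (k : ℕ) (c : ℝ) :
    walkLaw d {w | clock w (k + 1) = c} = 0 := by
  have hX : Measurable fun w : Walk d => (w k).1 := measurable_fst.comp (measurable_pi_apply k)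
  have hY : Measurable fun w : Walk d => clock w k := measurable_clock k
  have hlaw : (walkLaw d).map (fun w : Walk d => (w k).1) = expMeasure 1 := by
    have h1 : MeasurePreserving (fun w : Walk d => w k) (walkLaw d)
        ((expMeasure 1).prod (stepLaw d)) :=
      measurePreserving_eval_infinitePi (fun _ : ℕ => (expMeasure 1).prod (stepLaw d)) k
    have h2 : MeasurePreserving (Prod.fst : ℝ × Dir d → ℝ) ((expMeasure 1).prod (stepLaw d))
        (expMeasure 1) := measurePreserving_fst
    exact (h2.comp h1).map_eq
  have hpair := (indepFun_iff_map_prod_eq_prod_map_map hX.aemeasurable hY.aemeasurable).1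
    (Atm_ind d k)
  have hS : MeasurableSet {p : ℝ × ℝ | p.1 + p.2 = c} :=
    measurableSet_eq_fun (measurable_fst.add measurable_snd) measurable_const
  have h1 : {w : Walk d | clock w (k + 1) = c} =
      (fun w : Walk d => ((w k).1, clock w k)) ⁻¹' {p : ℝ × ℝ | p.1 + p.2 = c} := by
    ext w
    show clock w (k + 1) = c ↔ (w k).1 + clock w k = c
    unfold clock
    rw [Finset.sum_range_succ, add_comm]
  rw [h1, ← Measure.map_apply (hX.prodMk hY) hS, hpair, hlaw]
  have : IsProbabilityMeasure ((walkLaw d).map fun w : Walk d => clock w k) :=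
    Measure.isProbabilityMeasure_map hY.aemeasurable
  rw [Measure.prod_apply_symm hS]
  have h2 : ∀ b : ℝ, expMeasure 1 ((fun a => (a, b)) ⁻¹' {p : ℝ × ℝ | p.1 + p.2 = c}) = 0 := by
    intro b
    have h3 : (fun a : ℝ => (a, b)) ⁻¹' {p : ℝ × ℝ | p.1 + p.2 = c} = {c - b} := by
      ext a
      show a + b = c ↔ a = c - b
      constructor <;> intro h <;> linarith
    rw [h3]
    exact Atm_point _
  simp only [h2, lintegral_zero]

end Frog81
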