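import Pool.Agent.H.MP_53e2a7_pr.h81.Basic
import Pool.Agent.H.MP_53e2a7_pr.h81.Comp
import Pool.Agent.H.MP_53e2a7_pr.hs.Defs

/-!
# Chn: the visiting times are costs of chains

PROOF of chain_one: `parent_induction` for `p u := θ u = one → ∃ m ..`. `u = 0`: `m = []` (`t 0 = 0`, `cost ω 0 [y] = travel ω 0 y + 0`). `u ≠ 0`: `u ≠ z` (`θ z = two`), the parent `v` of `u` is of
type one, `t v < t u` (`time_lt`), `t u = t v + travel ω v u` (rate one is `1`), the chain `m'` of `v`: `t v + travel ω v u = cost ω 0 (m' ++ [u])`; take `m = m' ++ [u]`, `cost_append` with `l₂ = [y]`.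
chain_two: the same with `z`, rate `β` (`ENNReal.add_div`); sites of type two are `≠ 0` as `θ 0 = one`. (`z ≠ 0` too.)
no_tie: if `t v = ⊤` then the right side is `⊤` and the left side is not. Else chains for `u` and `v` and `NoTie`.
-/

namespace Frog81

open MeasureTheory ProbabilityTheory Filter
open scoped ENNReal NNReal Topology

theorem chain_one {d : ℕ} {β : ℝ} {z : Site d} {ω : Env d} {t : Site d → ℝ≥0∞} {θ : Site d → Kind}
    (hreg : Regular ω) (hβ0 : 0 < β) (h : IsTwoType β z ω t θ) {u : Site d}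
    (hu : θ u = Kind.one) (ht : t u ≠ ⊤) : ∃ m : List (Site d), (∀ w ∈ m, w ≠ 0) ∧
      ∀ y, t u + travel ω u y = cost ω 0 (m ++ [y]) := by
  refine parent_induction hreg h (fun u => θ u = Kind.one → ∃ m : List (Site d),
    (∀ w ∈ m, w ≠ 0) ∧ ∀ y, t u + travel ω u y = cost ω 0 (m ++ [y])) ?_ u ht hu
  intro u hut ih hu1
  by_cases hu0 : u = 0
  · subst hu0
    refine ⟨[], fun w hw => absurd hw List.not_mem_nil, fun y => ?_⟩
    rw [h.time_zero, List.nil_append, cost, cost, zero_add, add_zero]
  · have huz : u ≠ z := by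
      intro he
      rw [he, h.kind_start] at hu1
      exact Kind.noConfusion hu1
    obtain ⟨x, hx, hθ, he⟩ := h.parent u hu0 huz hut
    have hlt := time_lt hreg hβ0 h x u hx hut he
    rw [hu1] at hθ
    obtain ⟨m, hm, hc⟩ := ih x hlt hθ
    refine ⟨m ++ [u], ?_, fun y => ?_⟩
    · intro w hw
      rcases List.mem_append.1 hw with h1 | h1
      · exact hm w h1
      · rw [List.mem_singleton.1 h1]
        exact hu0
    · have hr : rate β Kind.one = 1 := by simp [rate]
      rw [hθ, hr, div_one] at he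
      rw [List.append_assoc, List.singleton_append, cost_append, cost, cost, add_zero, ← hc u, ← he]

theorem chain_two {d : ℕ} {β : ℝ} {z : Site d} {ω : Env d} {t : Site d → ℝ≥0∞} {θ : Site d → Kind}
    (hreg : Regular ω) (hβ0 : 0 < β) (h : IsTwoType β z ω t θ) {u : Site d}
    (hu : θ u = Kind.two) (ht : t u ≠ ⊤) : ∃ m : List (Site d), (∀ w ∈ m, w ≠ 0) ∧
      ∀ y, t u + travel ω u y / ENNReal.ofReal β = cost ω z (m ++ [y]) / ENNReal.ofReal β := by
  refine parent_induction hreg h (fun u => θ u = Kind.two → ∃ m : List (Site d),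
    (∀ w ∈ m, w ≠ 0) ∧ ∀ y, t u + travel ω u y / ENNReal.ofReal β =
      cost ω z (m ++ [y]) / ENNReal.ofReal β) ?_ u ht hu
  intro u hut ih hu1
  by_cases huz : u = z
  · subst huz
    refine ⟨[], fun w hw => absurd hw List.not_mem_nil, fun y => ?_⟩
    rw [h.time_start, List.nil_append, cost, cost, zero_add, add_zero]
  · have hu0 : u ≠ 0 := by
      intro he
      rw [he, h.kind_zero] at hu1
      exact Kind.noConfusion hu1
    obtain ⟨x, hx, hθ, he⟩ := h.parent u hu0 huz hut
    have hlt := time_lt hreg hβ0 h x u hx hut he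
    rw [hu1] at hθ
    obtain ⟨m, hm, hc⟩ := ih x hlt hθ
    refine ⟨m ++ [u], ?_, fun y => ?_⟩
    · intro w hw
      rcases List.mem_append.1 hw with h1 | h1
      · exact hm w h1
      · rw [List.mem_singleton.1 h1]
        exact hu0
    · have hr : rate β Kind.two = ENNReal.ofReal β := by simp [rate]
      rw [hθ, hr] at he
      rw [List.append_assoc, List.singleton_append, cost_append, cost, cost, add_zero,
        ENNReal.add_div, ← hc u, ← he]

theorem no_tie {d : ℕ} {β : ℝ} {z : Site d} {ω : Env d} {t : Site d → ℝ≥0∞} {θ : Site d → Kind}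
    (hreg : Regular ω) (hβ0 : 0 < β) (hnt : NoTie β z ω) (h : IsTwoType β z ω t θ)
    {y u v : Site d} (hy : y ≠ 0) (hu : θ u = Kind.one) (hv : θ v = Kind.two)
    (htop : t u + travel ω u y ≠ ⊤) :
    t u + travel ω u y ≠ t v + travel ω v y / ENNReal.ofReal β := by
  have hut : t u ≠ ⊤ := fun h1 => htop (by rw [h1, top_add])
  intro he
  have hvt : t v ≠ ⊤ := by
    intro h1
    rw [he, h1, top_add] at htop
    exact htop rfl
  obtain ⟨m, hm, hc⟩ := chain_one hreg hβ0 h hu hut
  obtain ⟨m', hm', hc'⟩ := chain_two hreg hβ0 h hv hvt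
  rw [hc y] at htop
  rw [hc y, hc' y] at he
  exact hnt m m' y hm hm' hy htop he

end Frog81
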