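import Pool.Agent.H.MP_53e2a7_pr.h81.Comp
import Pool.Agent.H.MP_53e2a7_pr.hs.Chn

/-!
# Loc: two environments which agree near the origin have the same process there

PROOF (compare he/CplB.lean, its induction on the times can be copied). Claim for all sites `y` with `min (t y) (t' y) ≤ t x`: `t y = t' y` and `θ y = θ' y`. Let `y` be a violation with the
least `m = min (t y) (t' y)` (finite sets by `h.fin`, `h'.fin`; induction on the number of sites with `t < m` plus the number with `t' < m` as in CplB). All `w` with `min (t w) (t' w) < m` agree.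
`y = 0` and `y = z` agree. (a) `t y = m`: the parent `u` of `y` in the first process has `t u < m ≤ t x`, so `u ∈ K`, agrees, `travel ω u y = travel ω' u y`, so `t' y ≤ t y` (`h'.le u y`); `t' y < t y` contradicts
`m = min`; so `t' y = t y = m`. The parent `v` of `y` in the second process: `t' v < m`, so it agrees, `t v < m ≤ t x`, `v ∈ K`, so `t y = t v + travel ω v y / rate β (θ v)` and `θ' y = θ' v = θ v`. If
`θ y ≠ θ' y` then one of `u`, `v` is of type one and the other one of type two (in the first process) and both arrive at time `t y ≠ ⊤`: contradiction to `no_tie`.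
(b) `t' y = m < t y`: the parent `v` of `y` in the second process agrees, `t v = t' v < m ≤ t x`, `v ∈ K`, so `t y ≤ t v + travel = t' y`, contradiction.
-/

namespace Frog81

open MeasureTheory ProbabilityTheory Filter
open scoped ENNReal NNReal Topology

private theorem Loc_fin {d : ℕ} {β : ℝ} {z : Site d} {ω : Env d} {t : Site d → ℝ≥0∞}
    {θ : Site d → Kind} (h : IsTwoType β z ω t θ) {m : ℝ≥0∞} (hm : m ≠ ⊤) :
    {u | t u < m}.Finite := by
  refine (h.fin m.toNNReal).subset ?_
  intro u hu
  have hu' : t u < m := hu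
  change t u ≤ (m.toNNReal : ℝ≥0∞)
  rw [ENNReal.coe_toNNReal hm]
  exact hu'.le

/-- the measure of the induction does not grow -/
private theorem Loc_le {d : ℕ} {t : Site d → ℝ≥0∞} {m m' : ℝ≥0∞} (hf : {u | t u < m}.Finite)
    (hm : m' < m) : {u | t u < m'}.ncard ≤ {u | t u < m}.ncard := by
  apply Set.ncard_le_ncard _ hf
  intro u hu
  exact lt_trans (show t u < m' from hu) hm

/-- the measure of the induction drops at a time that occurs -/
private theorem Loc_lt {d : ℕ} {t : Site d → ℝ≥0∞} {m m' : ℝ≥0∞} (hf : {u | t u < m}.Finite)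
    (hm : m' < m) {u : Site d} (hu : t u = m') :
    {u | t u < m'}.ncard < {u | t u < m}.ncard := by
  apply Set.ncard_lt_ncard _ hf
  constructor
  · intro v hv
    exact lt_trans (show t v < m' from hv) hm
  · intro hsub
    have h2 : u ∈ {u | t u < m} := by
      change t u < m
      rw [hu]; exact hm
    exact absurd hu (ne_of_lt (show t u < m' from hsub h2))

private theorem Loc_travel {d : ℕ} {ω ω' : Env d} {u : Site d} (h : ω u = ω' u) (y : Site d) :
    travel ω u y = travel ω' u y := by
  unfold travel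
  rw [h]

/-- two parents of the same site are of the same type -/
private theorem Loc_kind {d : ℕ} {β : ℝ} {z : Site d} {ω : Env d} {t : Site d → ℝ≥0∞}
    {θ : Site d → Kind} (hreg : Regular ω) (hβ0 : 0 < β) (hnt : NoTie β z ω)
    (h : IsTwoType β z ω t θ) {y u v : Site d} (hy0 : y ≠ 0) (hty : t y ≠ ⊤)
    (hu : t y = t u + travel ω u y / rate β (θ u)) (hv : t y = t v + travel ω v y / rate β (θ v)) :
    θ u = θ v := by
  rcases hku : θ u with _ | _ <;> rcases hkv : θ v with _ | _
  · rfl
  · exfalso
    rw [hku] at hu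
    rw [hkv] at hv
    simp only [rate, div_one] at hu hv
    exact no_tie hreg hβ0 hnt h hy0 hku hkv (hu ▸ hty) (hu.symm.trans hv)
  · exfalso
    rw [hku] at hu
    rw [hkv] at hv
    simp only [rate, div_one] at hu hv
    exact no_tie hreg hβ0 hnt h hy0 hkv hku (hv ▸ hty) (hv.symm.trans hu)
  · rfl

/-- agreement at the time `m` -/
private theorem Loc_main {d : ℕ} {β : ℝ} {z : Site d} {ω ω' : Env d} {t t' : Site d → ℝ≥0∞}
    {θ θ' : Site d → Kind} (K : Set (Site d)) (hK : ∀ y ∈ K, ω y = ω' y) (hreg : Regular ω)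
    (hreg' : Regular ω') (hβ0 : 0 < β) (hnt : NoTie β z ω)
    (h : IsTwoType β z ω t θ) (h' : IsTwoType β z ω' t' θ') {B : ℝ≥0∞}
    (hb : ∀ w, t w < B → w ∈ K) :
    ∀ n : ℕ, ∀ m : ℝ≥0∞, m ≠ ⊤ → m ≤ B → {u | t u < m}.ncard + {u | t' u < m}.ncard = n →
      ∀ y, min (t y) (t' y) = m → t y = t' y ∧ θ y = θ' y := by
  intro n
  induction n using Nat.strong_induction_on with
  | _ n ih =>
    intro m hm hmB hn
    have hP : ∀ y, min (t y) (t' y) < m → t y = t' y ∧ θ y = θ' y := by
      intro y hy
      refine ih _ ?_ (min (t y) (t' y)) (hy.trans_le le_top).ne (hy.le.trans hmB) rfl y rfl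
      rw [← hn]
      rcases min_choice (t y) (t' y) with hc | hc
      · exact add_lt_add_of_lt_of_le (Loc_lt (Loc_fin h hm) hy hc.symm)
          (Loc_le (Loc_fin h' hm) hy)
      · exact add_lt_add_of_le_of_lt (Loc_le (Loc_fin h hm) hy)
          (Loc_lt (Loc_fin h' hm) hy hc.symm)
    intro y hym
    by_cases hy0 : y = 0
    · subst hy0
      exact ⟨by rw [h.time_zero, h'.time_zero], by rw [h.kind_zero, h'.kind_zero]⟩
    by_cases hyz : y = z
    · subst hyz
      exact ⟨by rw [h.time_start, h'.time_start], by rw [h.kind_start, h'.kind_start]⟩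
    have hm1 : m ≤ t y := hym ▸ min_le_left _ _
    have hm2 : m ≤ t' y := hym ▸ min_le_right _ _
    -- a parent in the second process, when the site is reached there at the time `m`
    have key : t' y = m → ∃ v, θ' v = θ' y ∧ θ v = θ' v ∧
        t' y = t v + travel ω v y / rate β (θ v) := by
      intro hy'
      have hty' : t' y ≠ ⊤ := by rw [hy']; exact hm
      obtain ⟨v, hvy, hθ, he⟩ := h'.parent y hy0 hyz hty'
      have hlt := time_lt hreg' hβ0 h' v y hvy hty' he
      have hvm : min (t v) (t' v) < m := lt_of_le_of_lt (min_le_right _ _) (hy' ▸ hlt)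
      obtain ⟨h1, h2⟩ := hP v hvm
      have h3 : t v < m := by rw [h1]; exact hy' ▸ hlt
      have hvK : v ∈ K := hb v (lt_of_lt_of_le h3 hmB)
      refine ⟨v, hθ, h2, ?_⟩
      rw [h1, h2, Loc_travel (hK v hvK) y]
      exact he
    rcases eq_or_lt_of_le hm1 with hc | hc
    · -- the site is reached at the time `m` in the first process
      have hty : t y ≠ ⊤ := by rw [← hc]; exact hm
      obtain ⟨u, huy, hθ, he⟩ := h.parent y hy0 hyz hty
      have hlt := time_lt hreg hβ0 h u y huy hty he
      have hltm : t u < m := by rw [hc]; exact hlt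
      have huK : u ∈ K := hb u (lt_of_lt_of_le hltm hmB)
      obtain ⟨h1, h2⟩ := hP u (lt_of_le_of_lt (min_le_left _ _) hltm)
      have h3 : t' y ≤ t y := by
        calc t' y ≤ t' u + travel ω' u y / rate β (θ' u) := h'.le u y
          _ = t u + travel ω u y / rate β (θ u) := by
            rw [h1, h2, Loc_travel (hK u huK) y]
          _ = t y := he.symm
      have h4 : t' y = m := le_antisymm (h3.trans hc.symm.le) hm2
      have h5 : t y = t' y := by rw [h4]; exact hc.symm
      obtain ⟨v, hv1, hv2, hv3⟩ := key h4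
      refine ⟨h5, ?_⟩
      have h6 := Loc_kind hreg hβ0 hnt h hy0 hty he (h5.trans hv3)
      rw [← hθ, h6, hv2, hv1]
    · -- the site is reached at the time `m` in the second process only
      exfalso
      have h4 : t' y = m := by
        rcases min_choice (t y) (t' y) with hd | hd
        · rw [hym] at hd
          exact absurd hd hc.ne
        · rw [← hd, hym]
      obtain ⟨v, hv1, hv2, hv3⟩ := key h4
      have h5 : t y ≤ t' y := by
        rw [hv3]
        exact h.le v y
      rw [h4] at h5
      exact absurd (lt_of_lt_of_le hc h5) (lt_irrefl _)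

theorem same_on {d : ℕ} {β : ℝ} {z : Site d} {ω ω' : Env d} {t t' : Site d → ℝ≥0∞}
    {θ θ' : Site d → Kind} (K : Set (Site d)) (hK : ∀ y ∈ K, ω y = ω' y) (hreg : Regular ω)
    (hreg' : Regular ω') (hβ0 : 0 < β) (hβ1 : β ≤ 1) (hnt : NoTie β z ω)
    (h : IsTwoType β z ω t θ) (h' : IsTwoType β z ω' t' θ') {x : Site d} (hx : θ x = Kind.one)
    (htx : t x ≠ ⊤) (hb : ∀ w, t w < t x → w ∈ K) : θ' x = Kind.one ∧ t' x ≤ t x := by
  have h1 : min (t x) (t' x) ≤ t x := min_le_left _ _
  obtain ⟨h2, h3⟩ := Loc_main K hK hreg hreg' hβ0 hnt h h' hb _ (min (t x) (t' x))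
    (lt_of_le_of_lt h1 (lt_top_iff_ne_top.2 htx)).ne h1 rfl x rfl
  exact ⟨h3 ▸ hx, h2 ▸ le_rfl⟩

end Frog81
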