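import Pool.Agent.H.MP_53e2a7_pr.he.PairC
import Pool.Agent.H.MP_53e2a7_pr.hs.Loc

/-!
# CorS: a record of type one is won with probability bounded below

PROOF. As `core` in he/PairC.lean with `same_on` in place of `coupling_on`.
-/

namespace Frog81

open MeasureTheory ProbabilityTheory Filter
open scoped ENNReal NNReal Topology

theorem core_same {d : ℕ} [NeZero d] (ν : Measure ℕ) [IsProbabilityMeasure ν]
    {μ : (Fin d → ℝ) → ℝ} {β a κd δ κ ρ₁ R RS : ℝ} {N : ℕ} {z : Site d} (hβ0 : 0 < β)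
    (hβ1 : β < 1) {G : Set (Env d)}
    (hG : ∀ η ∈ G, Regular η ∧ Slow μ κ N η z ∧ Dense μ κ N η ∧ Good μ κ N η 0 ∧
      ∃ t θ, IsTwoType β z η t θ ∧ Activates η t θ Kind.two)
    (hwin : ∀ (η : Env d) (t : Site d → ℝ≥0∞) (θ : Site d → Kind), Regular η →
        IsTwoType β z η t θ → Slow μ κ N η z → Dense μ κ N η → Good μ κ N η 0 →
          ∀ (r : ℕ) (x : Site d) (i : Fin d) (σ : ℤ), σ = 1 ∨ σ = -1 → R ≤ r → θ x = Kind.one →
            (r : ℝ) ≤ μ (rv x) → t x ≤ ENNReal.ofReal (ρ₁ * r) →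
              (∀ y ∈ cone i σ, μ (rv x) ≤ μ (rv (x + y))) →
                (∀ y : Site d, ‖rv y - (a * r) • rv (ax i σ 1)‖ ≤ κd * r →
                  T (cut {w | w - x ∈ cone i σ} η) x (x + y) ≤ ENNReal.ofReal (δ * r)) →
                    {y | θ y = Kind.two}.Finite)
    {i : Fin d} {σ : ℤ} (hσ : σ = 1 ∨ σ = -1) {S : Set (Env d)} (hSm : MeasurableSet S)
    (hS : ∀ ω ∈ S, 1 ≤ (ω 0).1 ∧
        ∀ r : ℕ, RS ≤ r → ∀ y : Site d, ‖rv y - (a * r) • rv (ax i σ 1)‖ ≤ κd * r →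
          T (cut (cone i σ) ω) 0 y ≤ ENNReal.ofReal (δ * r))
    {ω : Env d} (hreg : Regular ω) (hnt : NoTie β z ω) {t₁ : Site d → ℝ≥0∞} {θ₁ : Site d → Kind}
    (h₁ : IsTwoType β z ω t₁ θ₁) {r : ℕ} (hr : R ≤ r) (hrS : RS ≤ r) {x : Site d}
    (hx : θ₁ x = Kind.one) (hrx : (r : ℝ) ≤ μ (rv x)) (htx : t₁ x ≤ ENNReal.ofReal (ρ₁ * r))
    (hb : ∀ w, t₁ w < t₁ x → w ∈ lev μ r)
    (hsupp : ∀ y ∈ cone i σ, μ (rv x) ≤ μ (rv (x + y))) :
    envLaw d ν {ω' | glue (lev μ r) ω ω' ∈ G} ≤ 1 - envLaw d ν S := by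
  have hmp := measurePreserving_shift ν x
  have hBm : MeasurableSet (shift x ⁻¹' S) := hmp.measurable hSm
  have hsub : {ω' : Env d | glue (lev μ r) ω ω' ∈ G} ⊆ (shift x ⁻¹' S)ᶜ := by
    intro ω' hω' hω'S
    rw [Set.mem_setOf_eq] at hω'
    rw [Set.mem_preimage] at hω'S
    obtain ⟨hreg', hslow, hdense, hgood, t, θ, h2, hact⟩ := hG _ hω'
    have hK : ∀ y ∈ lev μ r, ω y = glue (lev μ r) ω ω' y := by
      intro y hy
      unfold glue
      rw [if_pos hy]
    have htop : t₁ x ≠ ⊤ := ne_top_of_le_ne_top ENNReal.ofReal_ne_top htx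
    obtain ⟨hθx, htx'⟩ := same_on (lev μ r) hK hreg hreg' hβ0 hβ1.le hnt h₁ h2 hx htop
      hb
    have hfin := hwin _ t θ hreg' h2 hslow hdense hgood r x i σ hσ hr hθx hrx (htx'.trans htx)
      hsupp (by
        intro y hy
        have hc : ∀ w ∈ {w | w - x ∈ cone i σ}, glue (lev μ r) ω ω' w = ω' w := by
          intro w hw
          rw [Set.mem_setOf_eq] at hw
          have h3 := hsupp _ hw
          rw [add_sub_cancel] at h3
          unfold glue
          rw [if_neg]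
          unfold lev
          rw [Set.mem_setOf_eq]
          exact not_lt.2 (hrx.trans h3)
        rw [T_cut_congr hc]
        have h4 := (hS _ hω'S).2 r hrS y hy
        rw [T_cut_shift, zero_add, add_comm y x] at h4
        exact h4)
    exact hact (hfin.subset fun y hy => hy.1)
  calc envLaw d ν {ω' | glue (lev μ r) ω ω' ∈ G} ≤ envLaw d ν (shift x ⁻¹' S)ᶜ :=
        measure_mono hsub
    _ = 1 - envLaw d ν (shift x ⁻¹' S) := prob_compl_eq_one_sub hBm
    _ = 1 - envLaw d ν S := by rw [hmp.measure_preimage hSm.nullMeasurableSet]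

end Frog81
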