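import Pool.Agent.H.MP_53e2a7_pr.hd.Two
import Pool.Agent.H.MP_53e2a7_pr.he.Occ
import Pool.Agent.H.MP_53e2a7_pr.he.Rec
import Pool.Agent.H.MP_53e2a7_pr.hs.Defs

/-!
# Erl: early sites are of type one, records

PROOF of early_kind: for `θ y = two`, `two_slow` gives `T ω z y / ofReal β ≤ t y`, but `t y < ofReal ((1-ε)/β) * T ω z y ≤ T ω z y / ofReal β`. early_occ: if `(ω 0).1 = 0` then every type one
site with `t y ≠ ⊤` is `0` (as in he/Occ.lean `occ_one`), so the set would be contained in `{0, z}`; `t y < .. ≤ ⊤` gives `t y ≠ ⊤`.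
early_same: `records` (he/Rec) with this `β` and `B = (1-ε)/β * ((1+κ) * C * ‖rv z‖ + N)`: infinitely many early `y`, so some with `R ≤ μ (rv y)`, `y ≠ z` (finitely many sites with `μ (rv y) < R`, see
`Early_finite` in he/Early.lean), `θ y = one`, and `t y < ofReal ((1-ε)/β) * T ω z y`, `T ω z y ≤ ofReal ((1+κ) μ (rv y - rv z) + N)` (Good at `z`), `μ (rv y - rv z) ≤ μ (rv y) + C ‖rv z‖` (`hμ.add`, `hμ.up`, norm of
the negative), so `t y ≤ ofReal (ρ₂ μ (rv y) + B)`.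
-/

namespace Frog81

open MeasureTheory ProbabilityTheory Filter
open scoped ENNReal NNReal Topology

private theorem Erl_finite {d : ℕ} (M : ℝ) : {y : Site d | ‖rv y‖ < M}.Finite := by
  have h1 : {y : Site d | ‖rv y‖ < M} ⊆ Set.Icc (fun _ => -⌈M⌉) (fun _ => ⌈M⌉) := by
    intro y hy
    have hy' : ‖rv y‖ < M := hy
    have h2 : ∀ i, |(y i : ℝ)| < M := fun i => by
      have h3 := norm_le_pi_norm (rv y) i
      rw [Real.norm_eq_abs] at h3
      exact lt_of_le_of_lt h3 hy'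
    have h4 : ∀ i, |y i| ≤ ⌈M⌉ := fun i => by
      have h5 : ((|y i| : ℤ) : ℝ) < M := by rw [Int.cast_abs]; exact h2 i
      have h6 : ((|y i| : ℤ) : ℝ) ≤ (⌈M⌉ : ℝ) := h5.le.trans (Int.le_ceil M)
      exact_mod_cast h6
    exact ⟨fun i => (abs_le.1 (h4 i)).1, fun i => (abs_le.1 (h4 i)).2⟩
  exact (Set.finite_Icc _ _).subset h1

theorem early_kind {d : ℕ} {β ε : ℝ} {z : Site d} {ω : Env d} {t : Site d → ℝ≥0∞}
    {θ : Site d → Kind} (hreg : Regular ω) (hβ0 : 0 < β) (hβ1 : β ≤ 1) (hε : 0 < ε)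
    (h : IsTwoType β z ω t θ) {y : Site d} (hyz : y ≠ z)
    (hy : t y < ENNReal.ofReal ((1 - ε) / β) * T ω z y) : θ y = Kind.one := by
  rcases hθ : θ y with _ | _
  · rfl
  · exfalso
    have h1 := two_slow hreg hβ0 hβ1 h y hθ hyz
    have h2 : ENNReal.ofReal ((1 - ε) / β) * T ω z y ≤ T ω z y / ENNReal.ofReal β := by
      rw [ENNReal.div_eq_inv_mul, ← ENNReal.ofReal_inv_of_pos hβ0]
      refine mul_le_mul' (ENNReal.ofReal_le_ofReal ?_) le_rfl
      rw [inv_eq_one_div]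
      exact div_le_div_of_nonneg_right (by linarith) hβ0.le
    exact absurd (hy.trans_le (h2.trans h1)) (lt_irrefl _)

theorem early_occ {d : ℕ} {β ε : ℝ} {z : Site d} {ω : Env d} {t : Site d → ℝ≥0∞}
    {θ : Site d → Kind} (hreg : Regular ω) (hβ0 : 0 < β) (hβ1 : β ≤ 1) (hε : 0 < ε)
    (h : IsTwoType β z ω t θ)
    (hE : {y | t y < ENNReal.ofReal ((1 - ε) / β) * T ω z y}.Infinite) : 1 ≤ (ω 0).1 := by
  by_contra hcon
  have h0 : (ω 0).1 = 0 := by omega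
  have key : ∀ y, t y ≠ ⊤ → θ y = Kind.one → y = 0 := by
    intro y hy
    refine parent_induction hreg h (fun y => θ y = Kind.one → y = 0) ?_ y hy
    intro y hty ih hθy
    by_contra hy0
    have hyz : y ≠ z := by
      rintro rfl
      rw [h.kind_start] at hθy
      exact absurd hθy (by decide)
    obtain ⟨x, hxy, hθ, he⟩ := h.parent y hy0 hyz hty
    have hx := ih x (time_lt hreg hβ0 h x y hxy hty he) (hθ.trans hθy)
    rw [hx, h.kind_zero, h.time_zero, travel_eq_top ω 0 y h0] at he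
    apply hty
    rw [he]
    simp [rate]
  have hfin : ({0, z} : Set (Site d)).Finite := Set.toFinite _
  obtain ⟨y, hy, hy'⟩ := (hE.diff hfin).nonempty
  have hy1 : t y < ENNReal.ofReal ((1 - ε) / β) * T ω z y := hy
  have hyz : y ≠ z := fun h1 => hy' (Or.inr h1)
  have hy0 : y ≠ 0 := fun h1 => hy' (Or.inl h1)
  exact hy0 (key y (lt_top_iff_ne_top.1 (lt_of_lt_of_le hy1 le_top))
    (early_kind hreg hβ0 hβ1 hε h hyz hy1))

theorem early_same {d : ℕ} {μ : (Fin d → ℝ) → ℝ} {c C β κ ρ₁ ρ₂ ε : ℝ} (hμ : IsGauge μ c C)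
    (hβ0 : 0 < β) (hβ1 : β < 1) (hε0 : 0 < ε) (hε1 : ε < 1) (hκ0 : 0 < κ)
    (hκ1 : (1 + κ) * ((1 - ε) / β) ≤ ρ₂) (hρ : ρ₂ < ρ₁) (hκ : β * ρ₁ < 1 - κ) {N : ℕ}
    {z : Site d} {ω : Env d} {t : Site d → ℝ≥0∞} {θ : Site d → Kind} (hreg : Regular ω)
    (hgood : Good μ κ N ω z) (hs : Slow μ κ N ω z) (h : IsTwoType β z ω t θ)
    (hE : {y | t y < ENNReal.ofReal ((1 - ε) / β) * T ω z y}.Infinite) :
    ∃ᶠ r : ℕ in atTop, ∃ x : Site d, θ x = Kind.one ∧
      (r : ℝ) ≤ μ (rv x) ∧ t x ≤ ENNReal.ofReal (ρ₁ * r) ∧ ∀ w, t w < t x → w ∈ lev μ r := by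
  obtain ⟨q, hq⟩ : ∃ q, q = (1 - ε) / β := ⟨_, rfl⟩
  have hq0 : 0 < q := by
    rw [hq]
    exact div_pos (by linarith) hβ0
  rw [← hq] at hκ1 hE
  have hρ20 : 0 < ρ₂ := lt_of_lt_of_le (mul_pos (by linarith) hq0) hκ1
  refine records (ρ₂ := ρ₂) (B := q * ((1 + κ) * (C * ‖rv z‖) + N)) hμ hreg hβ0 hβ1.le hρ20 hρ
    hκ0 hκ h hs ?_
  intro R
  have hF : {y : Site d | μ (rv y) < R}.Finite := by
    refine (Erl_finite (R / c)).subset fun y hy => ?_
    have hy' : μ (rv y) < R := hy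
    show ‖rv y‖ < R / c
    rw [lt_div_iff₀ hμ.c_pos]
    have := hμ.low (rv y)
    linarith
  obtain ⟨y, hy, hyR⟩ := (hE.diff (hF.union (Set.finite_singleton z))).nonempty
  have hy1 : t y < ENNReal.ofReal q * T ω z y := hy
  have hyz : y ≠ z := fun h1 => hyR (Or.inr h1)
  have hyR' : R ≤ μ (rv y) := not_lt.1 fun h1 => hyR (Or.inl h1)
  have hμ0 : 0 ≤ μ (rv y) := le_trans (mul_nonneg hμ.c_pos.le (norm_nonneg _)) (hμ.low (rv y))
  refine ⟨y, early_kind hreg hβ0 hβ1.le hε0 h hyz (hq ▸ hy1), hyR', hy1.le.trans ?_⟩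
  have h1 : μ (rv y - rv z) ≤ μ (rv y) + C * ‖rv z‖ := by
    have h2 := hμ.add (rv y) (-rv z)
    have h3 := hμ.up (-rv z)
    rw [norm_neg] at h3
    rw [sub_eq_add_neg]
    linarith
  calc ENNReal.ofReal q * T ω z y
      ≤ ENNReal.ofReal q * ENNReal.ofReal ((1 + κ) * μ (rv y - rv z) + N) :=
        mul_le_mul' le_rfl (hgood.2 y).1
    _ = ENNReal.ofReal (q * ((1 + κ) * μ (rv y - rv z) + N)) :=
        (ENNReal.ofReal_mul hq0.le).symm
    _ ≤ ENNReal.ofReal (ρ₂ * μ (rv y) + q * ((1 + κ) * (C * ‖rv z‖) + N)) := by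
        apply ENNReal.ofReal_le_ofReal
        have h4 : (1 + κ) * μ (rv y - rv z) ≤ (1 + κ) * (μ (rv y) + C * ‖rv z‖) :=
          mul_le_mul_of_nonneg_left h1 (by linarith)
        have h5 : q * ((1 + κ) * μ (rv y - rv z) + N) ≤
            q * ((1 + κ) * (μ (rv y) + C * ‖rv z‖) + N) :=
          mul_le_mul_of_nonneg_left (by linarith) hq0.le
        have h6 := mul_le_mul_of_nonneg_right hκ1 hμ0
        have h7 : q * ((1 + κ) * (μ (rv y) + C * ‖rv z‖) + N) =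
            (1 + κ) * q * μ (rv y) + q * ((1 + κ) * (C * ‖rv z‖) + N) := by ring
        linarith

end Frog81
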