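import Pool.Agent.H.MP_53e2a7_pr.hs.Atm

/-!
# Trv: hitting times and travel times have no atoms

PROOF of hit_atom. For almost every `w` (`ae_walk_regular`) the holding times are positive and the clock tends to infinity. If `hit x y w = c ≠ ⊤`, the infimum over the `k` with
`pos x w k = y` is attained at the least such `k` (the clock is increasing; there is such a `k` as `c ≠ ⊤`), and `k ≥ 1` as `pos x w 0 = x ≠ y`; so `ofReal (clock w k) = c`, and
`clock w k = c.toReal` (`clock w k ≥ 0`). So the event is contained in the countable union of the `{clock w (k+1) = c.toReal}` and a null set: `clock_atom`.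
travel_atom: `travel ω x y` is the infimum over the finitely many `j < (ω x).1` of `hit x y ((ω x).2 j)`; if it is `c ≠ ⊤` it is attained (`(ω x).1 ≠ 0`), so the event is contained in
the union over `j` of `{hit x y ((ω x).2 j) = c}`; `measurePreserving_walk ν x j` (h81/Shape or Inv).
-/

namespace Frog81

open MeasureTheory ProbabilityTheory Filter
open scoped ENNReal NNReal Topology

private theorem Trv_mono {d : ℕ} {w : Walk d} (hw : ∀ i, 0 < (w i).1) : Monotone (clock w) := by
  refine monotone_nat_of_le_succ fun n => ?_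
  unfold clock
  rw [Finset.sum_range_succ]
  have := hw n
  linarith

theorem hit_atom {d : ℕ} [NeZero d] {x y : Site d} (hxy : x ≠ y) {c : ℝ≥0∞} (hc : c ≠ ⊤) :
    walkLaw d {w | hit x y w = c} = 0 := by
  classical
  have h1 : walkLaw d {w | ¬ ((∀ i, 0 < (w i).1) ∧ Tendsto (clock w) atTop atTop)} = 0 :=
    ae_iff.1 (ae_walk_regular d)
  have h2 : walkLaw d (⋃ k : ℕ, {w | clock w (k + 1) = c.toReal}) = 0 :=
    measure_iUnion_null fun k => clock_atom d k c.toReal
  refine measure_mono_null ?_ (measure_union_null h1 h2)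
  intro w hw
  by_cases hr : (∀ i, 0 < (w i).1) ∧ Tendsto (clock w) atTop atTop
  · right
    have hw' : hit x y w = c := hw
    have hmono := Trv_mono hr.1
    have hex : ∃ k, pos x w k = y := by
      by_contra hno
      apply hc
      rw [← hw']
      unfold hit
      rw [iInf_eq_top]
      intro k
      rw [iInf_eq_top]
      intro hk
      exact (hno ⟨k, hk⟩).elim
    have hk := Nat.find_spec hex
    have hmin : ∀ k, pos x w k = y → Nat.find hex ≤ k := fun k h => Nat.find_min' hex h
    obtain ⟨k0, hk0⟩ : ∃ k0, k0 = Nat.find hex := ⟨_, rfl⟩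
    rw [← hk0] at hk
    rw [← hk0] at hmin
    have hne : k0 ≠ 0 := by
      intro h0
      rw [h0] at hk
      apply hxy
      have : pos x w 0 = x := by
        unfold pos
        rw [Finset.sum_range_zero, add_zero]
      rw [← this, hk]
    have heq : hit x y w = ENNReal.ofReal (clock w k0) := by
      unfold hit
      refine le_antisymm (iInf₂_le k0 hk) (le_iInf₂ fun k h => ?_)
      exact ENNReal.ofReal_le_ofReal (hmono (hmin k h))
    obtain ⟨k, rfl⟩ : ∃ k, k0 = k + 1 := ⟨k0 - 1, by omega⟩
    refine Set.mem_iUnion.2 ⟨k, ?_⟩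
    change clock w (k + 1) = c.toReal
    have h0 : 0 ≤ clock w (k + 1) := by
      unfold clock
      exact Finset.sum_nonneg fun i _ => (hr.1 i).le
    rw [← hw', heq, ENNReal.toReal_ofReal h0]
  · left
    exact hr

theorem travel_atom {d : ℕ} [NeZero d] (ν : Measure ℕ) [IsProbabilityMeasure ν] {x y : Site d}
    (hxy : x ≠ y) {c : ℝ≥0∞} (hc : c ≠ ⊤) : envLaw d ν {ω | travel ω x y = c} = 0 := by
  have h2 : envLaw d ν (⋃ j : ℕ, (fun ω : Env d => (ω x).2 j) ⁻¹' {w | hit x y w = c}) = 0 :=
    measure_iUnion_null fun j =>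
      (measurePreserving_walk ν x j).quasiMeasurePreserving.preimage_null (hit_atom hxy hc)
  refine measure_mono_null ?_ h2
  intro ω hω
  have hω' : travel ω x y = c := hω
  have hn : (ω x).1 ≠ 0 := by
    intro h0
    apply hc
    rw [← hω']
    unfold travel
    rw [iInf_eq_top]
    intro j
    rw [iInf_eq_top]
    intro hj
    omega
  obtain ⟨j, hj, hmin⟩ := Finset.exists_min_image (Finset.range (ω x).1)
    (fun j => hit x y ((ω x).2 j)) ⟨0, Finset.mem_range.2 (Nat.pos_of_ne_zero hn)⟩
  refine Set.mem_iUnion.2 ⟨j, ?_⟩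
  change hit x y ((ω x).2 j) = c
  rw [← hω']
  unfold travel
  refine le_antisymm (le_iInf₂ fun i hi => hmin i (Finset.mem_range.2 hi)) ?_
  have hj' : j < (ω x).1 := Finset.mem_range.1 hj
  exact iInf₂_le (f := fun (j : ℕ) (_ : j < (ω x).1) => hit x y ((ω x).2 j)) j hj'

end Frog81
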