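import Pool.Agent.H.MP_53e2a7_pr.h81.Meas
import Pool.Agent.H.MP_53e2a7_pr.he.GlueP
import Pool.Agent.H.MP_53e2a7_pr.hs.Trv

/-!
# Tie: almost surely there are no ties

PROOF. Countable union over `m`, `m'`, `y` (`ae_all_iff`, lists of sites are countable; the hypotheses are propositions, `ae_all_iff` or `eventually_imp` for them). Fix them. Let
`m ++ [y] = a :: l` (`a ≠ 0`; `m = []`: `a = y`, `l = []`; else `l = m₁ ++ [y]`). `cost ω 0 (a :: l) = travel ω 0 a + cost ω a l`. Let
`B = {ω | cost ω 0 (m ++ [y]) ≠ ⊤ ∧ cost ω 0 (m ++ [y]) = cost ω z (m' ++ [y]) / ofReal β}` (measurable, `Meas_cost`). For the map `glue {0} ω ω'` (he/Defs, `ω` at `0`, `ω'` elsewhere):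
`travel (glue {0} ω ω') 0 a = travel ω 0 a`; `cost (glue {0} ω ω') x (m ++ [y]) = cost ω' x (m ++ [y])` if `x ≠ 0` and all `v ∈ m` are `≠ 0` (induction on `m`; the last entry `y` is not used as
a source); also `cost .. a [] = 0`. So for fixed `ω'`, `glue {0} ω ω' ∈ B` implies `travel ω 0 a + F = H ≠ ⊤` with constants `F`, `H`, so `travel ω 0 a = H - F ≠ ⊤`
(`ENNReal.eq_sub_of_add_eq`), probability `0` by `travel_atom`. `glue_mp ν {0}`, `Measure.prod_apply_symm` (or `Measure.measure_prod_null` after swapping) give `P B = 0`.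
-/

namespace Frog81

open MeasureTheory ProbabilityTheory Filter
open scoped ENNReal NNReal Topology

private theorem Tie_travel_ne {d : ℕ} (ω ω' : Env d) {x : Site d} (hx : x ≠ 0) (y : Site d) :
    travel (glue {0} ω ω') x y = travel ω' x y := by
  have h : glue {0} ω ω' x = ω' x := by
    unfold glue
    exact if_neg (fun h => hx (Set.mem_singleton_iff.1 h))
  unfold travel
  rw [h]

private theorem Tie_travel_zero {d : ℕ} (ω ω' : Env d) (y : Site d) :
    travel (glue {0} ω ω') 0 y = travel ω 0 y := by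
  have h : glue {0} ω ω' 0 = ω 0 := by
    unfold glue
    exact if_pos (Set.mem_singleton 0)
  unfold travel
  rw [h]

private theorem Tie_cost {d : ℕ} (ω ω' : Env d) (l : List (Site d)) :
    ∀ x : Site d, x ≠ 0 → (∀ v ∈ l, v ≠ 0) → cost (glue {0} ω ω') x l = cost ω' x l := by
  induction l with
  | nil => exact fun x _ _ => rfl
  | cons a l ih =>
    intro x hx hl
    show travel (glue {0} ω ω') x a + cost (glue {0} ω ω') a l = travel ω' x a + cost ω' a l
    rw [Tie_travel_ne ω ω' hx a, ih a (hl a List.mem_cons_self)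
      (fun v hv => hl v (List.mem_cons_of_mem _ hv))]

private theorem Tie_null {d : ℕ} [NeZero d] (ν : Measure ℕ) [IsProbabilityMeasure ν] {β : ℝ}
    {z : Site d} (hz : z ≠ 0) (a : Site d) (ha : a ≠ 0) (l l' : List (Site d))
    (hl : ∀ v ∈ l, v ≠ 0) (hl' : ∀ v ∈ l', v ≠ 0) :
    envLaw d ν {ω | cost ω 0 (a :: l) ≠ ⊤ ∧
      cost ω 0 (a :: l) = cost ω z l' / ENNReal.ofReal β} = 0 := by
  have : IsProbabilityMeasure (envLaw d ν) := by
    unfold envLaw siteLaw walkLaw
    infer_instance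
  have hB : MeasurableSet {ω : Env d | cost ω 0 (a :: l) ≠ ⊤ ∧
      cost ω 0 (a :: l) = cost ω z l' / ENNReal.ofReal β} := by
    have h1 : MeasurableSet {ω : Env d | cost ω 0 (a :: l) ≠ ⊤} :=
      (Meas_cost 0 (a :: l)) (measurableSet_singleton ⊤).compl
    have h2 : MeasurableSet {ω : Env d | cost ω 0 (a :: l) = cost ω z l' / ENNReal.ofReal β} :=
      measurableSet_eq_fun (Meas_cost 0 (a :: l)) ((Meas_cost z l').div_const _)
    exact h1.inter h2
  have hmp := glue_mp ν ({0} : Set (Site d))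
  rw [← hmp.measure_preimage hB.nullMeasurableSet,
    Measure.prod_apply_symm (hmp.measurable hB)]
  rw [lintegral_eq_zero_iff' (by
    exact (measurable_measure_prodMk_right (hmp.measurable hB)).aemeasurable)]
  refine Filter.Eventually.of_forall fun ω' => ?_
  show envLaw d ν _ = 0
  by_cases hH : cost ω' z l' / ENNReal.ofReal β = ⊤
  · refine measure_mono_null (t := (∅ : Set (Env d))) ?_ measure_empty
    intro ω hω
    obtain ⟨h1, h2⟩ := (hω : cost (glue {0} ω ω') 0 (a :: l) ≠ ⊤ ∧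
      cost (glue {0} ω ω') 0 (a :: l) = cost (glue {0} ω ω') z l' / ENNReal.ofReal β)
    rw [h2, Tie_cost ω ω' l' z hz hl', hH] at h1
    exact absurd rfl h1
  · have hc : cost ω' z l' / ENNReal.ofReal β - cost ω' a l ≠ ⊤ :=
      ne_top_of_le_ne_top hH tsub_le_self
    refine measure_mono_null ?_ (travel_atom ν (x := (0 : Site d)) (y := a) ha.symm hc)
    intro ω hω
    obtain ⟨h1, h2⟩ := (hω : cost (glue {0} ω ω') 0 (a :: l) ≠ ⊤ ∧
      cost (glue {0} ω ω') 0 (a :: l) = cost (glue {0} ω ω') z l' / ENNReal.ofReal β)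
    rw [Tie_cost ω ω' l' z hz hl'] at h2
    have h3 : cost (glue {0} ω ω') 0 (a :: l) = travel ω 0 a + cost ω' a l := by
      show travel (glue {0} ω ω') 0 a + cost (glue {0} ω ω') a l = _
      rw [Tie_travel_zero, Tie_cost ω ω' l a ha hl]
    rw [h3] at h1 h2
    have hF : cost ω' a l ≠ ⊤ := fun h => h1 (by rw [h, add_top])
    show travel ω 0 a = cost ω' z l' / ENNReal.ofReal β - cost ω' a l
    exact ENNReal.eq_sub_of_add_eq hF h2

theorem ae_noTie {d : ℕ} [NeZero d] (ν : Measure ℕ) [IsProbabilityMeasure ν] {β : ℝ}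
    (hβ0 : 0 < β) {z : Site d} (hz : z ≠ 0) : ∀ᵐ ω ∂ envLaw d ν, NoTie β z ω := by
  unfold NoTie
  rw [ae_all_iff]
  intro m
  rw [ae_all_iff]
  intro m'
  rw [ae_all_iff]
  intro y
  by_cases hm : ∀ v ∈ m, v ≠ 0
  swap
  · exact Filter.Eventually.of_forall fun ω h => absurd h hm
  by_cases hm' : ∀ v ∈ m', v ≠ 0
  swap
  · exact Filter.Eventually.of_forall fun ω _ h => absurd h hm'
  by_cases hy : y = 0
  · exact Filter.Eventually.of_forall fun ω _ _ h => absurd hy h
  have hl' : ∀ v ∈ m' ++ [y], v ≠ 0 := by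
    intro v hv
    rcases List.mem_append.1 hv with h | h
    · exact hm' v h
    · rw [List.mem_singleton.1 h]
      exact hy
  obtain ⟨a, l, hal, ha, hl⟩ : ∃ (a : Site d) (l : List (Site d)), m ++ [y] = a :: l ∧ a ≠ 0 ∧
      ∀ v ∈ l, v ≠ 0 := by
    cases m with
    | nil => exact ⟨y, [], rfl, hy, fun v hv => absurd hv List.not_mem_nil⟩
    | cons a m1 =>
      refine ⟨a, m1 ++ [y], rfl, hm a List.mem_cons_self, fun v hv => ?_⟩
      rcases List.mem_append.1 hv with h | h
      · exact hm v (List.mem_cons_of_mem _ h)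
      · rw [List.mem_singleton.1 h]
        exact hy
  have h0 := Tie_null ν (β := β) hz a ha l (m' ++ [y]) hl hl'
  have h1 : ∀ᵐ ω ∂ envLaw d ν, ¬ (cost ω 0 (a :: l) ≠ ⊤ ∧
      cost ω 0 (a :: l) = cost ω z (m' ++ [y]) / ENNReal.ofReal β) :=
    measure_eq_zero_iff_ae_notMem.1 h0
  filter_upwards [h1] with ω hω _ _ _ hne heq
  rw [hal] at hne heq
  exact hω ⟨hne, heq⟩

end Frog81
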