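import Pool.Agent.H.MP_53e2a7_pr.hs.CorS
import Pool.Agent.H.MP_53e2a7_pr.hs.Tie

/-!
# PrS: combination

PROOF. As `pair_coex` in he/PairD.lean with one `β`. `b = 1/β > 1`, `q = max 1 ((1-ε) b) < b`, `ρ₂ = (3q+b)/4`, `ρ₁ = (q+b)/2`, `ρ₀ = (q+3b)/4`, so `1 ≤ q < ρ₂ < ρ₁ < ρ₀ < b`, `β ρ₀ < 1`, `β ρ₁ < 1`;
`κ = min (κ₀/2) (1/2) ((ρ₂ - q)/b) ((1 - β ρ₁)/2)` (then `(1+κ) (1-ε)/β ≤ ρ₂`, `β ρ₁ < 1 - κ`). The almost sure event contains also `NoTie β z ω` (`ae_noTie`). `U N` contains also Good κ N at `z`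
(`z` is occupied by `occ_two`, `0` by `early_occ`). `early_same` gives the records, `core_same` in place of `core`.
-/

namespace Frog81

open MeasureTheory ProbabilityTheory Filter
open scoped ENNReal NNReal Topology

private theorem PrS_slow {d : ℕ} {μ : (Fin d → ℝ) → ℝ} {κ : ℝ} {N N' : ℕ} (h : N ≤ N')
    {ω : Env d} {z : Site d} (hs : Slow μ κ N ω z) : Slow μ κ N' ω z := by
  have h1 : (N : ℝ) ≤ N' := by exact_mod_cast h
  exact ⟨hs.1.trans h1, fun y hy =>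
    (ENNReal.ofReal_le_ofReal (by linarith)).trans (hs.2 y hy)⟩

private theorem PrS_dz {d : ℕ} {μ : (Fin d → ℝ) → ℝ} {κ : ℝ} {N N' : ℕ} (h : N ≤ N')
    {ω : Env d} (hs : DenseZ μ κ N ω) : DenseZ μ κ N' ω := by
  intro x hx
  have h1 : (N : ℝ) ≤ N' := by exact_mod_cast h
  obtain ⟨g, hg, hgx⟩ := hs x (h1.trans hx)
  exact ⟨g, good_mono h hg, hgx⟩

private theorem PrS_mono {d : ℕ} {μ : (Fin d → ℝ) → ℝ} :
    Monotone (fun n : ℕ => lev (d := d) μ (n : ℝ)) := by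
  intro n m hnm y hy
  have h1 : μ (rv y) < (n : ℝ) := hy
  have h2 : (n : ℝ) ≤ m := by exact_mod_cast hnm
  exact lt_of_lt_of_le h1 h2

private theorem PrS_finite {d : ℕ} (M : ℝ) : {y : Site d | ‖rv y‖ < M}.Finite := by
  have h1 : {y : Site d | ‖rv y‖ < M} ⊆ Set.Icc (fun _ => -⌈M⌉) (fun _ => ⌈M⌉) := by
    intro y hy
    have hy' : ‖rv y‖ < M := hy
    have h2 : ∀ i, |(y i : ℝ)| < M := fun i => by
      have h3 := norm_le_pi_norm (rv y) i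
      rw [Real.norm_eq_abs] at h3
      exact lt_of_le_of_lt h3 hy'
    have h4 : ∀ i, |y i| ≤ ⌈M⌉ := fun i => by
      have h5 : ((|y i| : ℤ) : ℝ) < M := by rw [Int.cast_abs]; exact h2 i
      have h6 : ((|y i| : ℤ) : ℝ) ≤ (⌈M⌉ : ℝ) := h5.le.trans (Int.le_ceil M)
      exact_mod_cast h6
    exact ⟨fun i => (abs_le.1 (h4 i)).1, fun i => (abs_le.1 (h4 i)).2⟩
  exact (Set.finite_Icc _ _).subset h1

/-- the origin is occupied if some other visited site is of type one -/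
private theorem PrS_occ {d : ℕ} {β : ℝ} {z : Site d} {ω : Env d} {t : Site d → ℝ≥0∞}
    {θ : Site d → Kind} (hreg : Regular ω) (hβ0 : 0 < β) (h : IsTwoType β z ω t θ)
    {y : Site d} (hy0 : y ≠ 0) (hy1 : θ y = Kind.one) (hy2 : t y ≠ ⊤) : 1 ≤ (ω 0).1 := by
  by_contra hcon
  have h0 : (ω 0).1 = 0 := by omega
  have key : ∀ y, t y ≠ ⊤ → θ y = Kind.one → y = 0 := by
    intro y hy
    refine parent_induction hreg h (fun y => θ y = Kind.one → y = 0) ?_ y hy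
    intro y hty ih hθy
    by_contra hy0
    have hyz : y ≠ z := by
      rintro rfl
      rw [h.kind_start] at hθy
      exact absurd hθy (by decide)
    obtain ⟨x, hxy, hθ, he⟩ := h.parent y hy0 hyz hty
    have hx := ih x (time_lt hreg hβ0 h x y hxy hty he) (hθ.trans hθy)
    rw [hx, h.kind_zero, h.time_zero, travel_eq_top ω 0 y h0] at he
    apply hty
    rw [he]
    simp [rate]
  exact hy0 (key y hy2 hy1)

/-- early sites are of type one -/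
private theorem PrS_one {d : ℕ} {β ε : ℝ} {z : Site d} {ω : Env d} {t : Site d → ℝ≥0∞}
    {θ : Site d → Kind} (hreg : Regular ω) (hβ0 : 0 < β) (hβ1 : β ≤ 1) (hε : 0 < ε)
    (h : IsTwoType β z ω t θ) {y : Site d} (hyz : y ≠ z)
    (hy : t y < ENNReal.ofReal ((1 - ε) / β) * T ω z y) : θ y = Kind.one := by
  cases hθ : θ y with
  | one => rfl
  | two =>
    exfalso
    have h1 := two_slow hreg hβ0 hβ1 h y hθ hyz
    have h2 : ENNReal.ofReal ((1 - ε) / β) * T ω z y ≤ T ω z y / ENNReal.ofReal β := by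
      rw [ENNReal.div_eq_inv_mul, ← ENNReal.ofReal_inv_of_pos hβ0]
      refine mul_le_mul' (ENNReal.ofReal_le_ofReal ?_) le_rfl
      rw [inv_eq_one_div]
      exact div_le_div_of_nonneg_right (by linarith) hβ0.le
    exact absurd (hy.trans_le (h2.trans h1)) (lt_irrefl _)

theorem pair_same {d : ℕ} [NeZero d] (hd : 2 ≤ d) (ν : Measure ℕ) [IsProbabilityMeasure ν]
    (h : HasBoundedShape d ν) {β ε : ℝ} (hβ0 : 0 < β) (hβ1 : β < 1) (hε0 : 0 < ε) (hε1 : ε < 1)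
    {z : Site d} (hz : z ≠ 0) {G : Set (Env d)} (hGm : MeasurableSet G)
    (hG : ∀ ω ∈ G, ∃ t θ, IsTwoType β z ω t θ ∧ Activates ω t θ Kind.two ∧
      {y | t y < ENNReal.ofReal ((1 - ε) / β) * T ω z y}.Infinite) : envLaw d ν G = 0 := by
  by_contra hP
  obtain ⟨ω₀, hω₀⟩ : G.Nonempty := by
    rw [Set.nonempty_iff_ne_empty]
    rintro rfl
    exact hP measure_empty
  obtain ⟨μ, c, C, hμ, hgood⟩ := exists_gauge ν h
  obtain ⟨e, he⟩ : ∃ e : ℝ, e = (1 - ε) / β := ⟨_, rfl⟩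
  have he0 : 0 < e := by
    obtain ⟨t, θ, -, -, h1⟩ := hG ω₀ hω₀
    obtain ⟨y, hy⟩ := h1.nonempty
    by_contra hcon
    have h2 : t y < ENNReal.ofReal ((1 - ε) / β) * T ω₀ z y := hy
    rw [← he, ENNReal.ofReal_of_nonpos (not_lt.1 hcon), zero_mul] at h2
    exact absurd h2 not_lt_zero
  have hi1 : 1 < 1 / β := by
    rw [lt_div_iff₀ hβ0, one_mul]
    exact hβ1
  have heb : e < 1 / β := by
    rw [he]
    exact div_lt_div_of_pos_right (by linarith) hβ0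
  obtain ⟨ρ₂, hρ₂⟩ : ∃ ρ : ℝ, ρ = max ((e + 1 / β) / 2) ((1 + 1 / β) / 2) := ⟨_, rfl⟩
  have r1 : e < ρ₂ := by
    rw [hρ₂]
    exact lt_max_of_lt_left (by linarith)
  have r2 : 1 < ρ₂ := by
    rw [hρ₂]
    exact lt_max_of_lt_right (by linarith)
  have r3 : ρ₂ < 1 / β := by
    rw [hρ₂]
    exact max_lt (by linarith) (by linarith)
  obtain ⟨ρ₁, hρ₁⟩ : ∃ ρ : ℝ, ρ = (2 * ρ₂ + 1 / β) / 3 := ⟨_, rfl⟩
  obtain ⟨ρ₀, hρ₀⟩ : ∃ ρ : ℝ, ρ = (ρ₂ + 2 * (1 / β)) / 3 := ⟨_, rfl⟩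
  have r4 : ρ₂ < ρ₁ := by rw [hρ₁]; linarith
  have r5 : ρ₁ < ρ₀ := by rw [hρ₁, hρ₀]; linarith
  have r6 : ρ₀ < 1 / β := by rw [hρ₀]; linarith
  have r7 : 1 < ρ₁ := by linarith
  have r8 : β * ρ₀ < 1 := by
    have h1 := (lt_div_iff₀ hβ0).1 r6
    linarith
  have r9 : β * ρ₁ < 1 := by
    have h1 : β * ρ₁ ≤ β * ρ₀ := mul_le_mul_of_nonneg_left r5.le hβ0.le
    linarith
  obtain ⟨δ, hδd⟩ : ∃ δ : ℝ, δ = (ρ₀ - ρ₁) / 2 := ⟨_, rfl⟩
  have hδ : 0 < δ := by rw [hδd]; linarith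
  obtain ⟨a, κd, ha, hκd, hda, hS⟩ := success ν h.1 hμ hgood hδ
  obtain ⟨κ₀, hκ₀, hwin⟩ := win hd hμ hβ0 hβ1 r7 r5 r8 ha hκd hda hδ hδd.le
  obtain ⟨κ, hκ⟩ : ∃ κ : ℝ, κ = min (κ₀ / 2) (min (1 / 2) (min ((ρ₂ - e) / e)
    ((1 - β * ρ₁) / 2))) := ⟨_, rfl⟩
  have hκ0 : 0 < κ := by
    rw [hκ]
    refine lt_min (by linarith) (lt_min (by norm_num) (lt_min (div_pos (by linarith) he0)
      (by linarith)))
  have hk1 : κ ≤ κ₀ / 2 := by rw [hκ]; exact min_le_left _ _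
  have hk2 : κ ≤ 1 / 2 := by rw [hκ]; exact (min_le_right _ _).trans (min_le_left _ _)
  have hk3 : κ ≤ (ρ₂ - e) / e := by
    rw [hκ]; exact (min_le_right _ _).trans ((min_le_right _ _).trans (min_le_left _ _))
  have hk4 : κ ≤ (1 - β * ρ₁) / 2 := by
    rw [hκ]; exact (min_le_right _ _).trans ((min_le_right _ _).trans (min_le_right _ _))
  have hκb : κ < 1 := by linarith
  have hκc : e * (1 + κ) ≤ ρ₂ := by
    have h1 := (le_div_iff₀ he0).1 hk3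
    linarith
  have hκe : β * ρ₁ < 1 - κ := by linarith
  have hae : ∀ᵐ ω ∂ envLaw d ν, Regular ω ∧ (NoTie β z ω) ∧
      (∀ x : Site d, 1 ≤ (ω x).1 → ∃ N : ℕ, Good μ κ N ω x) ∧ ∃ N : ℕ, DenseZ μ (κ / 2) N ω := by
    have hg2 := hgood (κ / 2) (by linarith) (by linarith)
    filter_upwards [ae_regular ν, ae_noTie ν hβ0 hz, hgood κ hκ0 hκb,
      ae_dense ν (κ := κ / 2) (by linarith) (by linarith) h.1 hg2] with ω h1 h2 h3 h4
    obtain ⟨N, hN⟩ := h4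
    exact ⟨h1, h2, h3, N, denseZ_of_dense hN⟩
  obtain ⟨Z, hZsub, hZm, hZ0⟩ := exists_measurable_superset_of_null (ae_iff.1 hae)
  have hQ : ∀ ω, ω ∉ Z → Regular ω ∧ NoTie β z ω ∧
      (∀ x : Site d, 1 ≤ (ω x).1 → ∃ N : ℕ, Good μ κ N ω x) ∧
      ∃ N : ℕ, DenseZ μ (κ / 2) N ω := by
    intro ω hω
    by_contra hcon
    exact hω (hZsub hcon)
  obtain ⟨U, hU⟩ : ∃ U : ℕ → Set (Env d), ∀ N, U N = {ω : Env d | DenseZ μ (κ / 2) N ω} ∩
      {ω : Env d | Slow μ κ N ω z} ∩ {ω : Env d | Good μ κ N ω 0} := ⟨_, fun _ => rfl⟩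
  have hUm : ∀ N, MeasurableSet (U N) := fun N => by
    rw [hU]
    exact ((measurableSet_denseZ μ _ N).inter (measurableSet_slow μ κ N z)).inter
      (measurableSet_good μ κ N 0)
  have hcov : G \ Z ⊆ ⋃ N, (G ∩ U N) \ Z := by
    rintro ω ⟨hωG, hωZ⟩
    obtain ⟨q1, q2, q3, N₁, q4⟩ := hQ ω hωZ
    obtain ⟨t', θ', h', hp', hinf⟩ := hG ω hωG
    have h0 : 1 ≤ (ω 0).1 := by
      obtain ⟨y, hy, hyn⟩ := (hinf.diff (Set.toFinite {0, z})).nonempty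
      have hy0 : y ≠ 0 := fun h1 => hyn (by rw [h1]; exact Set.mem_insert _ _)
      have hyz : y ≠ z := fun h1 => hyn (by
        rw [h1]; exact Set.mem_insert_of_mem _ (Set.mem_singleton _))
      exact PrS_occ q1 hβ0 h' hy0 (PrS_one q1 hβ0 hβ1.le hε0 h' hyz hy)
        (lt_of_lt_of_le hy le_top).ne
    obtain ⟨N₂, hN₂⟩ := q3 0 h0
    obtain ⟨N₀, hN₀⟩ := exists_slow hμ hκ0 hκb (q3 z)
    refine Set.mem_iUnion.2 ⟨N₀ + N₁ + N₂, ⟨hωG, ?_⟩, hωZ⟩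
    rw [hU]
    exact ⟨⟨PrS_dz (by omega) q4, PrS_slow (by omega) hN₀⟩, good_mono (by omega) hN₂⟩
  obtain ⟨N, hN⟩ : ∃ N, envLaw d ν ((G ∩ U N) \ Z) ≠ 0 := by
    by_contra hcon
    push Not at hcon
    apply hP
    have h1 : envLaw d ν (G \ Z) = 0 := measure_mono_null hcov (measure_iUnion_null hcon)
    refine measure_mono_null (t := (G \ Z) ∪ Z) (fun ω hω => ?_) (measure_union_null h1 hZ0)
    by_cases hZω : ω ∈ Z
    · exact Or.inr hZω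
    · exact Or.inl ⟨hω, hZω⟩
  obtain ⟨N', hNN, hdz⟩ := dense_of_denseZ hμ (show 0 < κ / 2 by linarith) N
  have hGm' : MeasurableSet ((G ∩ U N) \ Z) := (hGm.inter (hUm N)).diff hZm
  have hG' : ∀ η ∈ (G ∩ U N) \ Z, Regular η ∧ Slow μ κ N' η z ∧ Dense μ κ N' η ∧
      Good μ κ N' η 0 ∧ ∃ t θ, IsTwoType β z η t θ ∧ Activates η t θ Kind.two := by
    rintro η ⟨⟨hηG, hηU⟩, hηZ⟩
    rw [hU] at hηU
    obtain ⟨⟨u1, u2⟩, u3⟩ := hηU
    have u4 := hdz η u1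
    rw [mul_div_cancel₀ κ (two_ne_zero)] at u4
    obtain ⟨t, θ, v1, v2, -⟩ := hG η hηG
    exact ⟨(hQ η hηZ).1, PrS_slow hNN u2, u4, good_mono hNN u3, t, θ, v1, v2⟩
  have hlevy := levy ν hGm' (fun n : ℕ => lev μ (n : ℝ))
    PrS_mono
    (fun y => exists_nat_gt (μ (rv y)))
  obtain ⟨ω, hω, hlim⟩ : ∃ ω, ω ∈ (G ∩ U N) \ Z ∧ Tendsto (fun n : ℕ =>
      envLaw d ν {ω' | glue (lev μ (n : ℝ)) ω ω' ∈ (G ∩ U N) \ Z}) atTop (𝓝 1) := by
    by_contra hcon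
    push Not at hcon
    refine hN (measure_mono_null (fun ω hω => ?_) (ae_iff.1 hlevy))
    intro hω'
    exact hcon ω hω (hω' hω)
  obtain ⟨g1, g2, g3, g4, -⟩ := hG' ω hω
  have g0 : NoTie β z ω := (hQ ω hω.2).2.1
  obtain ⟨t, θ, g5, g6, g7⟩ := hG ω hω.1.1
  have hz1 : 1 ≤ (ω z).1 := occ_two g1 hβ0 g5 g6
  obtain ⟨N₃, hN₃⟩ := (hQ ω hω.2).2.2.1 z hz1
  have hfreq : ∃ᶠ r : ℕ in atTop, ∃ x : Site d, θ x = Kind.one ∧ (r : ℝ) ≤ μ (rv x) ∧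
      t x ≤ ENNReal.ofReal (ρ₁ * r) ∧ ∀ w, t w < t x → w ∈ lev μ r := by
    refine records (ρ₂ := ρ₂) (B := e * (1 + κ) * μ (-rv z) + e * N₃) hμ g1 hβ0 hβ1.le
      (by linarith) r4 hκ0 hκe g5 g2 ?_
    intro R
    have hF : {y : Site d | μ (rv y) < R}.Finite := by
      refine (PrS_finite (R / c)).subset fun y hy => ?_
      have hy' : μ (rv y) < R := hy
      show ‖rv y‖ < R / c
      rw [lt_div_iff₀ hμ.c_pos]
      have := hμ.low (rv y)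
      linarith
    obtain ⟨y, hy, hyR⟩ := (g7.diff (hF.union (Set.finite_singleton z))).nonempty
    have hyR' : R ≤ μ (rv y) := by
      by_contra hcon
      exact hyR (Or.inl (not_le.1 hcon))
    have hyz : y ≠ z := fun h1 => hyR (Or.inr h1)
    have hy' : t y < ENNReal.ofReal ((1 - ε) / β) * T ω z y := hy
    refine ⟨y, PrS_one g1 hβ0 hβ1.le hε0 g5 hyz hy', hyR', ?_⟩
    have h6 := (hN₃.2 y).1
    rw [← he] at hy'
    refine hy'.le.trans ((mul_le_mul' le_rfl h6).trans ?_)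
    rw [← ENNReal.ofReal_mul he0.le]
    apply ENNReal.ofReal_le_ofReal
    have h7 : μ (rv y - rv z) ≤ μ (rv y) + μ (-rv z) := by
      rw [sub_eq_add_neg]
      exact hμ.add _ _
    have hμ0 : 0 ≤ μ (rv y) := le_trans (mul_nonneg hμ.c_pos.le (norm_nonneg _)) (hμ.low (rv y))
    have h8 : e * (1 + κ) * μ (rv y - rv z) ≤ e * (1 + κ) * (μ (rv y) + μ (-rv z)) :=
      mul_le_mul_of_nonneg_left h7 (mul_nonneg he0.le (by linarith))
    have h9 : e * (1 + κ) * μ (rv y) ≤ ρ₂ * μ (rv y) := mul_le_mul_of_nonneg_right hκc hμ0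
    calc e * ((1 + κ) * μ (rv y - rv z) + N₃) = e * (1 + κ) * μ (rv y - rv z) + e * N₃ := by ring
      _ ≤ ρ₂ * μ (rv y) + (e * (1 + κ) * μ (-rv z) + e * N₃) := by
        rw [mul_add] at h8
        linarith
  obtain ⟨R, hR⟩ := hwin κ hκ0 (by linarith) N'
  have hS' : ∀ p : Fin d × Bool, ∃ (R : ℝ) (S : Set (Env d)), MeasurableSet S ∧
      envLaw d ν S ≠ 0 ∧ ∀ ω ∈ S, 1 ≤ (ω 0).1 ∧ ∀ r : ℕ, R ≤ r → ∀ y : Site d,
        ‖rv y - (a * r) • rv (ax p.1 (cond p.2 1 (-1)) 1)‖ ≤ κd * r →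
          T (cut (cone p.1 (cond p.2 1 (-1))) ω) 0 y ≤ ENNReal.ofReal (δ * r) := by
    rintro ⟨i, b⟩
    cases b
    · exact hS i (-1) (Or.inr rfl)
    · exact hS i 1 (Or.inl rfl)
  choose RS S hSm hSne hSω using hS'
  have hne : (Finset.univ : Finset (Fin d × Bool)).Nonempty := ⟨(0, true), Finset.mem_univ _⟩
  obtain ⟨p₀, -, hp₀⟩ := Finset.exists_min_image Finset.univ (fun p => envLaw d ν (S p)) hne
  obtain ⟨p₁, -, hp₁⟩ := Finset.exists_max_image Finset.univ RS hne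
  have hlt : (1 : ℝ≥0∞) - envLaw d ν (S p₀) < 1 :=
    ENNReal.sub_lt_self ENNReal.one_ne_top one_ne_zero (hSne p₀)
  have hev := (hlim.eventually_const_lt hlt).and
    ((tendsto_natCast_atTop_atTop.eventually (eventually_ge_atTop R)).and
      (tendsto_natCast_atTop_atTop.eventually (eventually_ge_atTop (RS p₁))))
  obtain ⟨r, ⟨x, x1, x2, x3, x4⟩, hr1, hr2, hr3⟩ := (hfreq.and_eventually hev).exists
  obtain ⟨i, σ, hσ, hsupp⟩ := supp_cone hμ x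
  have hfinal : ∀ p : Fin d × Bool, p.1 = i → cond p.2 1 (-1) = σ →
      envLaw d ν {ω' | glue (lev μ (r : ℝ)) ω ω' ∈ (G ∩ U N) \ Z} ≤ 1 - envLaw d ν (S p) := by
    rintro ⟨i', b⟩ hi hb
    subst hi
    subst hb
    exact core_same ν hβ0 hβ1 hG' (fun η t θ => hR η z t θ) hσ (hSm _) (hSω _) g1 g0 g5 hr2
      ((hp₁ _ (Finset.mem_univ _)).trans hr3) x1 x2 x3 x4 hsupp
  have hle : ∀ p : Fin d × Bool, (1 : ℝ≥0∞) - envLaw d ν (S p) ≤ 1 - envLaw d ν (S p₀) :=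
    fun p => tsub_le_tsub_left (hp₀ p (Finset.mem_univ _)) 1
  rcases hσ with rfl | rfl
  · exact absurd hr1 (not_lt.2 ((hfinal (i, true) rfl rfl).trans (hle _)))
  · exact absurd hr1 (not_lt.2 ((hfinal (i, false) rfl rfl).trans (hle _)))

end Frog81
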